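import Mathlib

/-!
# Intervals with one hole
-/

set_option autoImplicit false

namespace Pool.Agent.TH708.Nar

open Finset

/-- Intervals with at most one hole inside `[0, n)`. -/
def OneHole (n : ℕ) (A : Finset ℕ) : Prop :=
  ∃ i k l j, i ≤ k ∧ k ≤ l ∧ l ≤ j ∧ j ≤ n ∧ A = Ico i k ∪ Ico l j

/-- The set can be cut, in `m` rounds of cuts into three intervals with one hole, down to pairs of
an element of `Y` and an element outside `Y`. -/
inductive Splits (n : ℕ) (Y : Finset ℕ) : ℕ → Finset ℕ → Prop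
  | empty (m : ℕ) : Splits n Y m ∅
  | pair (a b : ℕ) : a ∈ Y → b ∉ Y → Splits n Y 0 {a, b}
  | split (m : ℕ) (B C D : Finset ℕ) : OneHole n B → OneHole n C → OneHole n D →
      Disjoint B C → Disjoint B D → Disjoint C D →
      Splits n Y m B → Splits n Y m C → Splits n Y m D → Splits n Y (m + 1) (B ∪ C ∪ D)

/-- Balanced intervals with one hole can be cut in logarithmically many rounds. -/
def T_Splits : Prop := ∀ (n : ℕ) (Y : Finset ℕ) (r : ℕ) (A : Finset ℕ), OneHole n A →
  A.card = 2 * (A ∩ Y).card → A.card ≤ 2 ^ (r + 2) + 2 → Splits n Y (2 * r + 1) A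

end Pool.Agent.TH708.Nar
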