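import Pool.Agent.TH708.Dec.Binom

/-!
# Nearly balanced sets: counting
-/

set_option autoImplicit false
set_option linter.unusedSectionVars false

namespace Pool.Agent.TH708.Nar

open Finset

variable {V : Type} [DecidableEq V]

/-- `|2 |D ∩ Y| - |D|| < e`. -/
def Near (e : ℕ) (D Y : Finset V) : Prop :=
  2 * (D ∩ Y).card < D.card + e ∧ D.card < 2 * (D ∩ Y).card + e

instance (e : ℕ) (D Y : Finset V) : Decidable (Near e D Y) := by
  unfold Near; infer_instance

theorem Near.mono {e e' : ℕ} {D Y : Finset V} (h : Near e D Y) (he : e ≤ e') : Near e' D Y := by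
  unfold Near at h ⊢; omega

theorem near_congr {e : ℕ} {D Y Y' : Finset V} (h : D ∩ Y = D ∩ Y') : Near e D Y ↔ Near e D Y' := by
  unfold Near; rw [h]

theorem near_inter {e : ℕ} {D E Y : Finset V} (h : D ⊆ E) : Near e D (Y ∩ E) ↔ Near e D Y := by
  apply near_congr
  ext i
  simp only [mem_inter]
  constructor
  · rintro ⟨h1, h2, _⟩; exact ⟨h1, h2⟩
  · rintro ⟨h1, h2⟩; exact ⟨h1, h2, h h1⟩

theorem near_sdiff {e e' : ℕ} {A B Y : Finset V} (hAB : A ⊆ B) (hA : Near e A Y)
    (hB : Near e' B Y) : Near (e + e') (B \ A) Y := by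
  have h1 : (B \ A).card + A.card = B.card := card_sdiff_add_card_eq_card hAB
  have h2 : ((B \ A) ∩ Y).card + (A ∩ Y).card = (B ∩ Y).card := by
    rw [← card_union_of_disjoint]
    · congr 1
      ext i
      simp only [mem_union, mem_inter, mem_sdiff]
      constructor
      · rintro (⟨⟨h, _⟩, h'⟩ | ⟨h, h'⟩)
        · exact ⟨h, h'⟩
        · exact ⟨hAB h, h'⟩
      · rintro ⟨h, h'⟩
        by_cases hA : i ∈ A
        · exact Or.inr ⟨hA, h'⟩
        · exact Or.inl ⟨⟨h, hA⟩, h'⟩
    · rw [disjoint_left]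
      intro i h1 h2
      simp only [mem_inter, mem_sdiff] at h1 h2
      exact h1.1.2 h2.1
  unfold Near at *
  omega

theorem near_biUnion {ι : Type} [DecidableEq ι] {e : ℕ} {D : ι → Finset V} {Y : Finset V}
    (S : Finset ι) (hd : ∀ a ∈ S, ∀ b ∈ S, a ≠ b → Disjoint (D a) (D b))
    (h : ∀ a ∈ S, Near e (D a) Y) : Near (S.card * e + 1) (S.biUnion D) Y := by
  induction S using Finset.induction_on with
  | empty => simp [Near]
  | insert a S ha ih =>
    have ih' := ih (fun b hb c hc => hd b (mem_insert_of_mem hb) c (mem_insert_of_mem hc))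
      (fun b hb => h b (mem_insert_of_mem hb))
    have hdis : Disjoint (D a) (S.biUnion D) := by
      rw [disjoint_biUnion_right]
      intro b hb
      exact hd a (mem_insert_self _ _) b (mem_insert_of_mem hb) (fun hab => ha (hab ▸ hb))
    have hna := h a (mem_insert_self _ _)
    rw [biUnion_insert, card_insert_of_notMem ha]
    have h1 : (D a ∪ S.biUnion D).card = (D a).card + (S.biUnion D).card :=
      card_union_of_disjoint hdis
    have h2 : ((D a ∪ S.biUnion D) ∩ Y).card = (D a ∩ Y).card + (S.biUnion D ∩ Y).card := by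
      rw [union_inter_distrib_right]
      apply card_union_of_disjoint
      exact disjoint_of_subset_left inter_subset_left
        (disjoint_of_subset_right inter_subset_left hdis)
    unfold Near at *
    rw [h1, h2]
    have h3 : (S.card + 1) * e = S.card * e + e := by ring
    omega

/-- Splitting a subset of a disjoint union into three parts. -/
theorem three_parts {S T T' A' : Finset V} (h1 : S ⊆ T) (h2 : T ⊆ T') (h3 : T' ⊆ A')
    (P Q : Finset V → Prop) [DecidablePred P] [DecidablePred Q] :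
    ((A' \ S).powerset.filter fun Y => P (Y ∩ (T' \ T)) ∧ Q (Y ∩ (A' \ T'))).card ≤
      2 ^ (T \ S).card * ((T' \ T).powerset.filter P).card * ((A' \ T').powerset.filter Q).card := by
  have : 2 ^ (T \ S).card = (T \ S).powerset.card := (card_powerset _).symm
  rw [this, ← card_product, ← card_product]
  apply card_le_card_of_injOn (fun Y => ((Y ∩ (T \ S), Y ∩ (T' \ T)), Y ∩ (A' \ T')))
  · intro Y hY
    rw [mem_coe, mem_filter, mem_powerset] at hY
    rw [mem_coe, mem_product, mem_product]
    refine ⟨⟨mem_powerset.2 inter_subset_right, ?_⟩, ?_⟩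
    · rw [mem_filter, mem_powerset]; exact ⟨inter_subset_right, hY.2.1⟩
    · rw [mem_filter, mem_powerset]; exact ⟨inter_subset_right, hY.2.2⟩
  · intro Y hY Y' hY' he
    rw [mem_coe, mem_filter, mem_powerset] at hY hY'
    simp only [Prod.mk.injEq] at he
    obtain ⟨⟨e1, e2⟩, e3⟩ := he
    have key : ∀ Z : Finset V, Z ⊆ A' \ S → Z = (Z ∩ (T \ S)) ∪ (Z ∩ (T' \ T)) ∪ (Z ∩ (A' \ T')) := by
      intro Z hZ
      ext i
      simp only [mem_union, mem_inter, mem_sdiff]
      constructor
      · intro hi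
        have := hZ hi
        rw [mem_sdiff] at this
        by_cases a1 : i ∈ T
        · exact Or.inl (Or.inl ⟨hi, a1, this.2⟩)
        · by_cases a2 : i ∈ T'
          · exact Or.inl (Or.inr ⟨hi, a2, a1⟩)
          · exact Or.inr ⟨hi, this.1, a2⟩
      · rintro ((⟨h, _⟩ | ⟨h, _⟩) | ⟨h, _⟩) <;> exact h
    rw [key Y hY.1, key Y' hY'.1, e1, e2, e3]

variable [Fintype V]

/-- `2 τ`-balanced subsets are few. -/
theorem near_card (τ : ℕ) (D : Finset V) (h : 16 * τ ^ 4 ≤ D.card) :
    (D.powerset.filter fun Y => Near (2 * τ) D Y).card * (2 * τ) ≤ 2 ^ D.card := by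
  refine le_trans (Nat.mul_le_mul_right _ (card_le_card ?_)) (Pool.Agent.TH708.Dec.nb_card τ D h)
  intro Y hY
  rw [mem_filter, mem_powerset] at hY
  rw [Pool.Agent.TH708.Dec.NB, mem_filter, mem_powerset]
  have h1 : D ∩ Y = Y := inter_eq_right.2 hY.1
  have h2 := hY.2
  unfold Near at h2
  rw [h1] at h2
  exact ⟨hY.1, h2⟩

end Pool.Agent.TH708.Nar
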