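import Pool.Agent.TH708.Nar.Chain

/-!
# Chains are rare: induction on the length
-/

set_option autoImplicit false
set_option linter.unusedSectionVars false

namespace Pool.Agent.TH708.Nar

open Finset

variable {V : Type} [DecidableEq V] [Fintype V] {F : ℕ → Finset (Finset V)} {Δ : ℕ}

theorem ch_triv (τ t : ℕ) (hτ : 16 * τ ^ 4 ≤ t) (hτ0 : 0 < τ) {a b : ℕ} (hab : a ≤ b)
    (A A' : Finset V) (ht : t ≤ (A' \ A).card) :
    ((Ch F Δ (2 * τ) a b A A').card : ℝ) ≤
      2 ^ (A' \ A).card * Real.exp (-Real.log (2 * τ)) := by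
  classical
  have h1 := near_card τ (A' \ A) (hτ.trans ht)
  have h2 : (Ch F Δ (2 * τ) a b A A').card * (2 * τ) ≤ 2 ^ (A' \ A).card := by
    refine le_trans (Nat.mul_le_mul_right _ (card_le_card ?_)) h1
    intro Y hY
    rw [Ch, mem_filter] at hY
    rw [mem_filter]
    exact ⟨hY.1, hY.2.near hab⟩
  have h3 : ((Ch F Δ (2 * τ) a b A A').card : ℝ) * (2 * τ) ≤ 2 ^ (A' \ A).card := by
    exact_mod_cast h2
  have h4 : (0 : ℝ) < 2 * τ := by
    have : (0 : ℝ) < τ := by exact_mod_cast hτ0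
    linarith
  rw [Real.exp_neg, Real.exp_log h4, ← div_eq_mul_inv, le_div_iff₀ h4]
  exact h3

/-- **Chains are rare.** -/
theorem ch_card (τ t B M μ : ℕ) (hτ : 16 * τ ^ 4 ≤ t) (hτ0 : 0 < τ) (hμ : 0 < μ)
    (hΛ : 2 ≤ Real.log (2 * τ)) (hF : ∀ j, (F j).card ≤ M) (hΔ : Δ ≤ μ) (hBt : 8 * (B * t) ≤ μ)
    (hBM : (B : ℝ) * (M ^ 2 * Real.exp (-(Real.log (2 * τ) / 8))) ≤ 1) :
    ∀ (r a b : ℕ), a ≤ b → b - a ≤ B ^ r → ∀ A A' : Finset V, A ⊆ A' → t ≤ (A' \ A).card →
      ((Ch F Δ (2 * τ) a b A A').card : ℝ) ≤ 2 ^ (A' \ A).card *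
        Real.exp (-(Real.log (2 * τ) * max (1 : ℝ) (((A' \ A).card : ℝ) / (μ * 2 ^ r)))) := by
  classical
  set Λ := Real.log (2 * τ) with hΛd
  have hμR : (0 : ℝ) < μ := by exact_mod_cast hμ
  intro r
  induction r with
  | zero =>
    intro a b hab hb A A' hAA ht
    by_cases hne : (Ch F Δ (2 * τ) a b A A').Nonempty
    · obtain ⟨Y, hY⟩ := hne
      rw [Ch, mem_filter] at hY
      have h1 := hY.2.short hab (by rw [pow_zero] at hb; exact hb)
      have h2 : ((A' \ A).card : ℝ) / (μ * 2 ^ 0) ≤ 1 := by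
        rw [pow_zero, mul_one, div_le_one hμR]
        exact_mod_cast h1.trans hΔ
      rw [max_eq_left h2, mul_one]
      exact ch_triv τ t hτ hτ0 hab A A' ht
    · rw [not_nonempty_iff_eq_empty] at hne
      rw [hne, card_empty, Nat.cast_zero]
      positivity
  | succ r ih =>
    intro a b hab hb A A' hAA ht
    by_cases hy : ((A' \ A).card : ℝ) / (μ * 2 ^ (r + 1)) ≤ 1
    · rw [max_eq_left hy, mul_one]
      exact ch_triv τ t hτ hτ0 hab A A' ht
    push Not at hy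
    rw [max_eq_right hy.le]
    set m : ℝ := ((A' \ A).card : ℝ) with hm
    set η : ℝ := Real.exp (-(Λ / 8)) with hη
    set θ : ℝ := (7 / 8) * Λ / (μ * 2 ^ r) with hθ
    have hΛ0 : 0 ≤ Λ := by linarith
    have hp : (0 : ℝ) < μ * 2 ^ r := by positivity
    have hθ0 : 0 ≤ θ := by rw [hθ]; positivity
    have hη0 : 0 ≤ η := by rw [hη]; positivity
    have hS : ∀ p p', p ≤ p' → p' - p ≤ B ^ r → ∀ T T' : Finset V, T ⊆ T' → t ≤ (T' \ T).card →
        ((Ch F Δ (2 * τ) p p' T T').card : ℝ) ≤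
          2 ^ (T' \ T).card * (η * Real.exp (-(θ * (T' \ T).card))) := by
      intro p p' hpp hl T T' hT hTt
      refine (ih p p' hpp hl T T' hT hTt).trans ?_
      apply mul_le_mul_of_nonneg_left _ (by positivity)
      rw [hη, ← Real.exp_add]
      apply Real.exp_le_exp.2
      set y : ℝ := ((T' \ T).card : ℝ) / (μ * 2 ^ r) with hy'
      have h1 : θ * (T' \ T).card = (7 / 8) * Λ * y := by
        rw [hθ, hy']
        ring
      have h2 : (1 : ℝ) / 8 + 7 / 8 * y ≤ max 1 y := by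
        have h3 := le_max_left (1 : ℝ) y
        have h4 := le_max_right (1 : ℝ) y
        linarith
      have h3 : Λ * (1 / 8 + 7 / 8 * y) ≤ Λ * max 1 y := mul_le_mul_of_nonneg_left h2 hΛ0
      rw [h1]
      linarith
    have hmain := from_card (F := F) (Δ := Δ) (e := 2 * τ) M (B ^ r) t η θ hη0 hθ0 hF hS b A' B a 0
      A hab (by rw [pow_succ] at hb; rw [mul_comm B]; omega) hAA
    have hsub : (Ch F Δ (2 * τ) a b A A').card ≤
        ((A' \ A).powerset.filter fun Y => From F Δ (2 * τ) a b 0 A A' Y).card := by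
      apply card_le_card
      intro Y hY
      rw [Ch, mem_filter] at hY
      rw [mem_filter]
      refine ⟨hY.1, A, ?_, Subset.rfl, hAA, by simp, hY.2⟩
      obtain ⟨U, h1, h2, h3, _⟩ := hY.2
      rw [← h1]
      exact h3 a le_rfl hab
    have hsub' : ((Ch F Δ (2 * τ) a b A A').card : ℝ) ≤
        (((A' \ A).powerset.filter fun Y => From F Δ (2 * τ) a b 0 A A' Y).card : ℝ) := by
      exact_mod_cast hsub
    refine hsub'.trans (hmain.trans ?_)
    apply mul_le_mul_of_nonneg_left _ (by positivity)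
    have h1 : (1 + (M : ℝ) ^ 2 * η) ^ B ≤ Real.exp 1 := by
      calc (1 + (M : ℝ) ^ 2 * η) ^ B ≤ (Real.exp ((M : ℝ) ^ 2 * η)) ^ B := by
            apply pow_le_pow_left₀ (by positivity)
            rw [add_comm]
            exact Real.add_one_le_exp _
        _ = Real.exp (B * ((M : ℝ) ^ 2 * η)) := by rw [← Real.exp_nat_mul]
        _ ≤ Real.exp 1 := Real.exp_le_exp.2 hBM
    refine (mul_le_mul_of_nonneg_right h1 (by positivity)).trans ?_
    rw [← Real.exp_add]
    apply Real.exp_le_exp.2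
    rw [← hm, Nat.cast_zero, sub_zero]
    -- the arithmetic
    set y : ℝ := m / (μ * 2 ^ r) with hyd
    have e1 : m / (μ * 2 ^ (r + 1)) = y / 2 := by
      rw [hyd, pow_succ, div_div]
      congr 1
      ring
    rw [e1] at hy ⊢
    have hy2 : 2 < y := by linarith
    have e2 : θ * (m - B * t) = (7 / 8) * Λ * y - (7 / 8) * Λ * ((B * t : ℝ) / (μ * 2 ^ r)) := by
      rw [hθ, hyd]
      ring
    have h2 : (B * t : ℝ) / (μ * 2 ^ r) ≤ 1 / 8 := by
      rw [div_le_iff₀ hp]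
      have h3 : (8 : ℝ) * (B * t) ≤ μ := by exact_mod_cast hBt
      have h4 : (1 : ℝ) ≤ 2 ^ r := one_le_pow₀ (by norm_num)
      have h5 : (μ : ℝ) * 1 ≤ μ * 2 ^ r := mul_le_mul_of_nonneg_left h4 hμR.le
      linarith
    have h3 : (7 / 8) * Λ * ((B * t : ℝ) / (μ * 2 ^ r)) ≤ (7 / 8) * Λ * (1 / 8) :=
      mul_le_mul_of_nonneg_left h2 (by positivity)
    have h4 : Λ * 2 ≤ Λ * y := mul_le_mul_of_nonneg_left hy2.le hΛ0
    rw [e2]
    nlinarith

end Pool.Agent.TH708.Nar
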