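import Pool.Agent.TH708.Nar.Cut
import Pool.Agent.TH708.Nar.Level

/-!
# Counting half-size sets
-/

set_option autoImplicit false
set_option linter.unusedSectionVars false

namespace Pool.Agent.TH708.Nar

open Finset Pool.Agent.TH708.Dec

/-- There are at most `(|N| + 1)^k` subsets with at most `k` elements. -/
theorem small_subsets {ι : Type} [DecidableEq ι] (N : Finset ι) (k : ℕ) :
    (N.powerset.filter fun S => S.card ≤ k).card ≤ (N.card + 1) ^ k := by
  induction k with
  | zero =>
    have : (N.powerset.filter fun S => S.card ≤ 0) ⊆ {∅} := by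
      intro S hS
      rw [mem_filter] at hS
      rw [mem_singleton]
      exact card_eq_zero.1 (by omega)
    exact (card_le_card this).trans (by simp)
  | succ k ih =>
    have hsub : (N.powerset.filter fun S => S.card ≤ k + 1) ⊆
        insert ∅ ((N ×ˢ (N.powerset.filter fun S => S.card ≤ k)).image fun p => insert p.1 p.2) := by
      intro S hS
      rw [mem_filter, mem_powerset] at hS
      rw [mem_insert]
      rcases S.eq_empty_or_nonempty with h | ⟨a, ha⟩
      · exact Or.inl h
      · right
        rw [mem_image]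
        refine ⟨(a, S.erase a), ?_, insert_erase ha⟩
        rw [mem_product, mem_filter, mem_powerset]
        refine ⟨hS.1 ha, (erase_subset _ _).trans hS.1, ?_⟩
        rw [card_erase_of_mem ha]
        omega
    refine (card_le_card hsub).trans ((card_insert_le _ _).trans ?_)
    have h1 := card_image_le (s := N ×ˢ (N.powerset.filter fun S => S.card ≤ k))
      (f := fun p => insert p.1 p.2)
    rw [card_product] at h1
    have h2 := Nat.mul_le_mul_left N.card ih
    have h3 : 1 ≤ (N.card + 1) ^ k := Nat.one_le_pow _ _ (by omega)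
    rw [pow_succ]
    nlinarith

/-- Sets nearly balanced on many disjoint parts are few. -/
theorem many_near {V : Type} [DecidableEq V] [Fintype V] {ι : Type} [DecidableEq ι] (τ t : ℕ)
    (ht : 16 * τ ^ 4 ≤ t) (D : ι → Finset V) (S : Finset ι)
    (hd : ∀ a ∈ S, ∀ b ∈ S, a ≠ b → Disjoint (D a) (D b)) (hD : ∀ a ∈ S, t ≤ (D a).card) :
    ∀ E : Finset V, (∀ a ∈ S, D a ⊆ E) →
      (E.powerset.filter fun Y => ∀ a ∈ S, Near (2 * τ) (D a) Y).card * (2 * τ) ^ S.card ≤
        2 ^ E.card := by
  induction S using Finset.induction_on with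
  | empty =>
    intro E _
    simp
  | insert a S ha ih =>
    intro E hE
    have ih' := ih (fun b hb c hc => hd b (mem_insert_of_mem hb) c (mem_insert_of_mem hc))
      (fun b hb => hD b (mem_insert_of_mem hb)) (E \ D a) (by
        intro b hb i hi
        rw [mem_sdiff]
        refine ⟨hE b (mem_insert_of_mem hb) hi, fun hia => ?_⟩
        exact disjoint_left.1 (hd a (mem_insert_self _ _) b (mem_insert_of_mem hb)
          (fun h => ha (h ▸ hb))) hia hi)
    have h1 := near_card τ (D a) (ht.trans (hD a (mem_insert_self _ _)))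
    have haE := hE a (mem_insert_self _ _)
    have hcard : (E.powerset.filter fun Y => ∀ b ∈ insert a S, Near (2 * τ) (D b) Y).card ≤
        ((D a).powerset.filter fun Y => Near (2 * τ) (D a) Y).card *
          ((E \ D a).powerset.filter fun Y => ∀ b ∈ S, Near (2 * τ) (D b) Y).card := by
      rw [← card_product]
      apply card_le_card_of_injOn (fun Y => (Y ∩ D a, Y ∩ (E \ D a)))
      · intro Y hY
        rw [mem_coe, mem_filter, mem_powerset] at hY
        rw [mem_coe, mem_product, mem_filter, mem_filter, mem_powerset, mem_powerset]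
        refine ⟨⟨inter_subset_right, ?_⟩, inter_subset_right, ?_⟩
        · rw [near_inter Subset.rfl]
          exact hY.2 a (mem_insert_self _ _)
        · intro b hb
          rw [near_inter]
          · exact hY.2 b (mem_insert_of_mem hb)
          · intro i hi
            rw [mem_sdiff]
            refine ⟨hE b (mem_insert_of_mem hb) hi, fun hia => ?_⟩
            exact disjoint_left.1 (hd a (mem_insert_self _ _) b (mem_insert_of_mem hb)
              (fun h => ha (h ▸ hb))) hia hi
      · intro Y hY Y' hY' he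
        rw [mem_coe, mem_filter, mem_powerset] at hY hY'
        simp only [Prod.mk.injEq] at he
        have key : ∀ Z : Finset V, Z ⊆ E → Z = (Z ∩ D a) ∪ (Z ∩ (E \ D a)) := by
          intro Z hZ
          ext i
          simp only [mem_union, mem_inter, mem_sdiff]
          constructor
          · intro hi
            by_cases h : i ∈ D a
            · exact Or.inl ⟨hi, h⟩
            · exact Or.inr ⟨hi, hZ hi, h⟩
          · rintro (⟨h, _⟩ | ⟨h, _⟩) <;> exact h
        rw [key Y hY.1, key Y' hY'.1, he.1, he.2]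
    rw [card_insert_of_notMem ha]
    have h2 : (D a).card + (E \ D a).card = E.card := by
      have := card_sdiff_add_card_eq_card haE
      omega
    calc _ ≤ (((D a).powerset.filter fun Y => Near (2 * τ) (D a) Y).card *
          ((E \ D a).powerset.filter fun Y => ∀ b ∈ S, Near (2 * τ) (D b) Y).card) *
            (2 * τ) ^ (S.card + 1) := Nat.mul_le_mul_right _ hcard
      _ = (((D a).powerset.filter fun Y => Near (2 * τ) (D a) Y).card * (2 * τ)) *
          (((E \ D a).powerset.filter fun Y => ∀ b ∈ S, Near (2 * τ) (D b) Y).card *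
            (2 * τ) ^ S.card) := by ring
      _ ≤ 2 ^ (D a).card * 2 ^ (E \ D a).card := Nat.mul_le_mul h1 ih'
      _ = 2 ^ E.card := by rw [← pow_add, h2]

section

variable {I : Type} [DecidableEq I] {V : Type} [DecidableEq V] [Fintype V]

open Classical in
/-- Sets nearly balanced on many parts of one layer. -/
noncomputable def BadSets (C : Ckt I) (e : V → I) (N : Finset C.G) (t τ κ : ℕ) :
    Finset (Finset V) :=
  univ.filter fun Y => ∃ S ⊆ N, S.card = κ ∧
    (∀ a ∈ S, ∀ b ∈ S, a ≠ b → Disjoint (vs C e a) (vs C e b)) ∧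
    ∀ a ∈ S, t ≤ (vs C e a).card ∧ Near (2 * τ) (vs C e a) Y

theorem bad_card (C : Ckt I) (e : V → I) (N : Finset C.G) (t τ κ w : ℕ) (ht : 16 * τ ^ 4 ≤ t)
    (hN : N.card ≤ w) :
    (BadSets C e N t τ κ).card * (2 * τ) ^ κ ≤ w ^ κ * 2 ^ Fintype.card V := by
  classical
  have hsub : BadSets C e N t τ κ ⊆
      ((N.powersetCard κ).filter fun S => (∀ a ∈ S, ∀ b ∈ S, a ≠ b →
        Disjoint (vs C e a) (vs C e b)) ∧ ∀ a ∈ S, t ≤ (vs C e a).card).biUnion fun S =>
          (univ : Finset V).powerset.filter fun Y => ∀ a ∈ S, Near (2 * τ) (vs C e a) Y := by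
    intro Y hY
    rw [BadSets, mem_filter] at hY
    obtain ⟨_, S, h1, h2, h3, h4⟩ := hY
    rw [mem_biUnion]
    refine ⟨S, ?_, ?_⟩
    · rw [mem_filter, mem_powersetCard]
      exact ⟨⟨h1, h2⟩, h3, fun a ha => (h4 a ha).1⟩
    · rw [mem_filter, mem_powerset]
      exact ⟨subset_univ _, fun a ha => (h4 a ha).2⟩
  have h1 := (card_le_card hsub).trans card_biUnion_le
  refine (Nat.mul_le_mul_right _ h1).trans ?_
  rw [sum_mul]
  refine (sum_le_card_nsmul _ _ (2 ^ Fintype.card V) ?_).trans ?_
  · intro S hS
    rw [mem_filter, mem_powersetCard] at hS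
    have h2 := many_near τ t ht (vs C e) S hS.2.1 hS.2.2 univ (fun a _ => subset_univ _)
    rw [hS.1.2, card_univ] at h2
    refine le_trans (le_of_eq ?_) h2
    congr!
  · rw [smul_eq_mul]
    apply Nat.mul_le_mul_right
    refine (card_filter_le _ _).trans ?_
    rw [card_powersetCard]
    exact (Nat.choose_le_pow _ _).trans (Nat.pow_le_pow_left hN _)

/-- **Counting.** -/
theorem count (C : Ckt I) (e : V → I) (k w : ℕ) (hV : Fintype.card V = 2 * k) (hk : 1 ≤ k)
    (hlay : Layered C w)
    (hS : ∀ Y : Finset V, Y.card = k → ∃ (ρ : I → Bool) (σ : V → V), Sit C e ρ Y σ)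
    (s τ t κ B M μ R : ℕ) (hs : C.size < 2 ^ s) (hκ : κ * s + 1 ≤ τ) (hκ1 : 1 ≤ κ)
    (ht : 16 * τ ^ 4 ≤ t) (htk : t ≤ 2 * k) (hM : (w + 1) ^ κ ≤ M)
    (hΛ : 2 ≤ Real.log (2 * τ)) (hμ : w * (2 * t) ≤ μ) (hμ0 : 0 < μ) (hBt : 8 * (B * t) ≤ μ)
    (hBM : (B : ℝ) * (M ^ 2 * Real.exp (-(Real.log (2 * τ) / 8))) ≤ 1) (hR : C.size ≤ B ^ R) :
    (1 : ℝ) ≤ 2 * k * (C.size * ((w : ℝ) ^ κ / (2 * τ) ^ κ) +
      Real.exp (-(Real.log (2 * τ) * max (1 : ℝ) ((2 * k) / (μ * 2 ^ R))))) := by
  classical
  obtain ⟨lay, hl, hw⟩ := hlay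
  set N : ℕ → Finset C.G := fun m => univ.filter fun g => IsGate C g ∧ lay g = lay C.out + m
    with hN
  have hNw : ∀ m, (N m).card ≤ w := by
    intro m
    apply hw (lay C.out + m)
    intro g hg
    rw [hN] at hg
    simp only [mem_filter] at hg
    exact hg.2
  set F : ℕ → Finset (Finset V) := fun j =>
    ((N (C.size - j)).powerset.filter fun S => S.card ≤ κ).image fun S => S.biUnion (vs C e)
    with hF
  have hFM : ∀ j, (F j).card ≤ M := by
    intro j
    refine card_image_le.trans ((small_subsets _ _).trans ((Nat.pow_le_pow_left ?_ _).trans hM))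
    have := hNw (C.size - j)
    omega
  have ht1 : 1 ≤ t := by
    have : 1 ≤ τ := by omega
    have h1 : 1 ≤ τ ^ 4 := Nat.one_le_pow _ _ this
    omega
  -- every set of size `k` is bad or has a chain
  have hcover : (univ : Finset V).powersetCard k ⊆
      ((range C.size).biUnion fun m => BadSets C e (N m) t τ κ) ∪
        Ch F (w * (2 * t)) (2 * τ) 0 C.size ∅ univ := by
    intro Y hY
    rw [mem_powersetCard] at hY
    obtain ⟨ρ, σ, S⟩ := hS Y hY.2
    obtain ⟨x, hx, hn⟩ := S.exists_near hs
    obtain ⟨G, h1, h2, h3, h4, h5⟩ := S.cut hx (by omega) hn lay hl hw t ht1 (by omega)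
    rw [mem_union]
    by_cases hbig : ∃ m < C.size, κ ≤ (G m).card
    · left
      obtain ⟨m, hm, hb⟩ := hbig
      obtain ⟨T, hT1, hT2⟩ := exists_subset_card_eq hb
      rw [mem_biUnion]
      refine ⟨m, mem_range.2 hm, ?_⟩
      rw [BadSets, mem_filter]
      refine ⟨mem_univ _, T, ?_, hT2, ?_, ?_⟩
      · intro g hg
        have := h1 m g (hT1 hg)
        rw [hN]
        simp only [mem_filter, mem_univ, true_and]
        exact ⟨this.1, this.2.1⟩
      · intro a ha b hb hab
        exact h2 m a (hT1 ha) b (hT1 hb) hab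
      · intro a ha
        have := h1 m a (hT1 ha)
        refine ⟨this.2.2.1, this.2.2.2.mono ?_⟩
        have : s ≤ κ * s := Nat.le_mul_of_pos_left s (by omega)
        omega
    · right
      push Not at hbig
      have hsmall : ∀ m ≤ C.size, (G m).card ≤ κ := by
        intro m hm
        rcases Nat.lt_or_ge m C.size with hlt | hge
        · exact (hbig m hlt).le
        · have : m = C.size := by omega
          subst this
          have hempty : G C.size = ∅ := by
            by_contra hcon
            obtain ⟨g, hg⟩ := nonempty_iff_ne_empty.2 hcon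
            have h6 := (h1 _ g hg).2.2.1
            have h7 : (vs C e g).Nonempty := by rw [← card_pos]; omega
            obtain ⟨i, hi⟩ := h7
            have : i ∈ (G C.size).biUnion (vs C e) := mem_biUnion.2 ⟨g, hg, hi⟩
            rw [h5] at this
            exact notMem_empty _ this
          rw [hempty]; simp
      rw [Ch, mem_filter]
      refine ⟨by rw [sdiff_empty, mem_powerset]; exact subset_univ _, ?_⟩
      refine ⟨fun j => (G (C.size - j)).biUnion (vs C e), ?_, ?_, ?_, ?_, ?_⟩
      · simpa using h5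
      · simpa using h4
      · intro j _ _
        rw [hF]
        simp only [mem_image, mem_filter, mem_powerset]
        refine ⟨G (C.size - j), ⟨?_, hsmall _ (Nat.sub_le _ _)⟩, rfl⟩
        intro g hg
        have := h1 _ g hg
        rw [hN]
        simp only [mem_filter, mem_univ, true_and]
        exact ⟨this.1, this.2.1⟩
      · intro j _ hj
        have e1 : C.size - j = (C.size - (j + 1)) + 1 := by omega
        simp only
        rw [e1]
        exact h3 _
      · intro i j _ hij hj
        simp only
        have hmono : ∀ d m, (G (m + d)).biUnion (vs C e) ⊆ (G m).biUnion (vs C e) := by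
          intro d
          induction d with
          | zero => intro m; exact Subset.rfl
          | succ d ih => intro m; exact ((h3 (m + d)).1).trans (ih m)
        have hA : (G (C.size - i)).biUnion (vs C e) ⊆ (G (C.size - j)).biUnion (vs C e) := by
          have := hmono (j - i) (C.size - j)
          rwa [show C.size - j + (j - i) = C.size - i by omega] at this
        have hnear : ∀ m ≤ C.size, Near τ ((G m).biUnion (vs C e)) Y := by
          intro m hm
          have := near_biUnion (G m) (h2 m) (fun a ha => (h1 m a ha).2.2.2)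
          refine this.mono (le_trans ?_ hκ)
          have := Nat.mul_le_mul_right s (hsmall m hm)
          omega
        have := near_sdiff hA (hnear _ (Nat.sub_le _ _)) (hnear _ (Nat.sub_le _ _))
        rw [← two_mul] at this
        exact this
  have hc1 : ((univ : Finset V).powersetCard k).card = k.centralBinom := by
    rw [card_powersetCard, card_univ, hV, Nat.centralBinom]
  have hc2 := Nat.four_pow_le_two_mul_self_mul_centralBinom k (by omega)
  rw [← hc1] at hc2
  have hc3 := (card_le_card hcover).trans ((card_union_le _ _).trans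
    (Nat.add_le_add_right card_biUnion_le _))
  -- real inequalities
  have hτ0 : (0 : ℝ) < (2 * τ) ^ κ := by
    have : (0 : ℝ) < τ := by exact_mod_cast (by omega : 0 < τ)
    positivity
  have hb : ∀ m ∈ range C.size, ((BadSets C e (N m) t τ κ).card : ℝ) ≤
      4 ^ k * ((w : ℝ) ^ κ / (2 * τ) ^ κ) := by
    intro m _
    have h := bad_card C e (N m) t τ κ w ht (hNw m)
    rw [hV, pow_mul] at h
    have h' : ((BadSets C e (N m) t τ κ).card : ℝ) * (2 * τ) ^ κ ≤ (w : ℝ) ^ κ * 4 ^ k := by
      have h6 : (BadSets C e (N m) t τ κ).card * (2 * τ) ^ κ ≤ w ^ κ * 4 ^ k := by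
        norm_num at h; exact h
      exact_mod_cast h6
    rw [← mul_div_assoc, le_div_iff₀ hτ0]
    linarith
  have hchain := ch_card (F := F) (Δ := w * (2 * t)) τ t B M μ ht (by omega) hμ0 hΛ hFM hμ hBt hBM
    R 0 C.size (Nat.zero_le _) (by omega) ∅ univ (empty_subset _) (by
      rw [sdiff_empty, card_univ]; omega)
  rw [sdiff_empty, card_univ, hV] at hchain
  have h4k : (2 : ℝ) ^ (2 * k) = 4 ^ k := by rw [pow_mul]; norm_num
  rw [h4k] at hchain
  push_cast at hchain
  have hc4 : ((((univ : Finset V).powersetCard k).card : ℕ) : ℝ) ≤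
      C.size * (4 ^ k * ((w : ℝ) ^ κ / (2 * τ) ^ κ)) + 4 ^ k *
        Real.exp (-(Real.log (2 * τ) * max (1 : ℝ) ((2 * k) / (μ * 2 ^ R)))) := by
    have h6 : ((((univ : Finset V).powersetCard k).card : ℕ) : ℝ) ≤
        (∑ m ∈ range C.size, ((BadSets C e (N m) t τ κ).card : ℝ)) +
          ((Ch F (w * (2 * t)) (2 * τ) 0 C.size ∅ univ).card : ℝ) := by
      exact_mod_cast hc3
    refine h6.trans (add_le_add ?_ hchain)
    refine (sum_le_card_nsmul _ _ _ hb).trans (le_of_eq ?_)
    rw [card_range, nsmul_eq_mul]
  have hc5 : (4 : ℝ) ^ k ≤ 2 * k * ((((univ : Finset V).powersetCard k).card : ℕ) : ℝ) := by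
    exact_mod_cast hc2
  have hk0 : (0 : ℝ) ≤ 2 * k := by positivity
  have hc6 := hc5.trans (mul_le_mul_of_nonneg_left hc4 hk0)
  have h4 : (0 : ℝ) < 4 ^ k := by positivity
  have hc7 : (4 : ℝ) ^ k * 1 ≤ 4 ^ k * (2 * k * (C.size * ((w : ℝ) ^ κ / (2 * τ) ^ κ) +
      Real.exp (-(Real.log (2 * τ) * max (1 : ℝ) ((2 * k) / (μ * 2 ^ R)))))) := by
    rw [mul_one]
    refine hc6.trans (le_of_eq ?_)
    ring
  exact le_of_mul_le_mul_left hc7 h4

end

end Pool.Agent.TH708.Nar
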