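import Pool.Agent.TH708.Nar.Near

/-!
# Chains of nearly balanced sets along few sets per layer
-/

set_option autoImplicit false
set_option linter.unusedSectionVars false

namespace Pool.Agent.TH708.Nar

open Finset

variable {V : Type} [DecidableEq V]

/-- A chain of sets from `A` to `A'` along the layers `a, ..., b`; the set of the layer `j` belongs
to `F j`, the steps are small and the differences are nearly balanced. -/
def Chain (F : ℕ → Finset (Finset V)) (Δ e a b : ℕ) (A A' Y : Finset V) : Prop :=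
  ∃ U : ℕ → Finset V, U a = A ∧ U b = A' ∧ (∀ j, a ≤ j → j ≤ b → U j ∈ F j) ∧
    (∀ j, a ≤ j → j < b → U j ⊆ U (j + 1) ∧ (U (j + 1) \ U j).card ≤ Δ) ∧
    ∀ i j, a ≤ i → i ≤ j → j ≤ b → Near e (U j \ U i) Y

theorem chain_mono {U : ℕ → Finset V} {a b Δ : ℕ}
    (h : ∀ j, a ≤ j → j < b → U j ⊆ U (j + 1) ∧ (U (j + 1) \ U j).card ≤ Δ) {i : ℕ} (hi : a ≤ i) :
    ∀ j, i ≤ j → j ≤ b → U i ⊆ U j := by
  intro j hij
  induction j, hij using Nat.le_induction with
  | base => intro _; exact Subset.rfl
  | succ j hij ih =>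
    intro hj
    exact (ih (by omega)).trans (h j (by omega) (by omega)).1

variable {F : ℕ → Finset (Finset V)} {Δ e : ℕ}

theorem Chain.inter {a b : ℕ} {A A' Y : Finset V} (h : Chain F Δ e a b A A' Y)
    (E : Finset V) (hE : A' \ A ⊆ E) : Chain F Δ e a b A A' (Y ∩ E) := by
  obtain ⟨U, h1, h2, h3, h4, h5⟩ := h
  refine ⟨U, h1, h2, h3, h4, fun i j hi hij hj => ?_⟩
  rw [near_inter]
  · exact h5 i j hi hij hj
  · refine Subset.trans ?_ hE
    rw [← h1, ← h2]
    exact sdiff_subset_sdiff (chain_mono h4 (hi.trans hij) b hj le_rfl)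
      (chain_mono h4 le_rfl i hi (hij.trans hj))

theorem Chain.split {a b : ℕ} {A A' Y : Finset V} (h : Chain F Δ e a b A A' Y) {c : ℕ}
    (hac : a ≤ c) (hcb : c ≤ b) : ∃ T ∈ F c, A ⊆ T ∧ T ⊆ A' ∧ Chain F Δ e a c A T Y ∧
      Chain F Δ e c b T A' Y := by
  obtain ⟨U, h1, h2, h3, h4, h5⟩ := h
  refine ⟨U c, h3 c hac hcb, ?_, ?_, ⟨U, h1, rfl, ?_, ?_, ?_⟩, ⟨U, rfl, h2, ?_, ?_, ?_⟩⟩
  · rw [← h1]; exact chain_mono h4 le_rfl c hac hcb
  · rw [← h2]; exact chain_mono h4 hac b hcb le_rfl
  · exact fun j hj hj' => h3 j hj (hj'.trans hcb)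
  · exact fun j hj hj' => h4 j hj (lt_of_lt_of_le hj' hcb)
  · exact fun i j hi hij hj => h5 i j hi hij (hj.trans hcb)
  · exact fun j hj hj' => h3 j (hac.trans hj) hj'
  · exact fun j hj hj' => h4 j (hac.trans hj) hj'
  · exact fun i j hi hij hj => h5 i j (hac.trans hi) hij hj

theorem Chain.near {a b : ℕ} {A A' Y : Finset V} (h : Chain F Δ e a b A A' Y) (hab : a ≤ b) :
    Near e (A' \ A) Y := by
  obtain ⟨U, h1, h2, h3, h4, h5⟩ := h
  rw [← h1, ← h2]
  exact h5 a b le_rfl hab le_rfl

theorem Chain.short {a b : ℕ} {A A' Y : Finset V} (h : Chain F Δ e a b A A' Y) (hab : a ≤ b)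
    (hb : b - a ≤ 1) : (A' \ A).card ≤ Δ := by
  obtain ⟨U, h1, h2, h3, h4, h5⟩ := h
  rcases Nat.lt_or_ge a b with hlt | hge
  · have : b = a + 1 := by omega
    subst this
    rw [← h1, ← h2]
    exact (h4 a le_rfl (by omega)).2
  · have : b = a := by omega
    subst this
    rw [← h1, ← h2]
    simp

theorem Chain.refl_eq {a : ℕ} {A A' Y : Finset V} (h : Chain F Δ e a a A A' Y) : A = A' := by
  obtain ⟨U, h1, h2, _⟩ := h
  rw [← h1, ← h2]

open Classical in
/-- The subsets of `A' \ A` with a chain. -/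
noncomputable def Ch (F : ℕ → Finset (Finset V)) (Δ e a b : ℕ) (A A' : Finset V) :
    Finset (Finset V) :=
  (A' \ A).powerset.filter fun Y => Chain F Δ e a b A A' Y

/-- Some chain from a set slightly larger than `S`. -/
def From (F : ℕ → Finset (Finset V)) (Δ e p b δ : ℕ) (S A' Y : Finset V) : Prop :=
  ∃ T ∈ F p, S ⊆ T ∧ T ⊆ A' ∧ (T \ S).card ≤ δ ∧ Chain F Δ e p b T A' Y

open Classical in
/-- The dynamic programming step: `k` blocks of length at most `l`. -/
theorem from_card (M l t : ℕ) (η θ : ℝ) (hη : 0 ≤ η) (hθ : 0 ≤ θ)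
    (hF : ∀ j, (F j).card ≤ M)
    (hS : ∀ p p', p ≤ p' → p' - p ≤ l → ∀ T T' : Finset V, T ⊆ T' → t ≤ (T' \ T).card →
      ((Ch F Δ e p p' T T').card : ℝ) ≤
        2 ^ (T' \ T).card * (η * Real.exp (-(θ * (T' \ T).card))))
    (b : ℕ) (A' : Finset V) : ∀ (k p δ : ℕ) (S : Finset V), p ≤ b → b ≤ p + k * l → S ⊆ A' →
      (((A' \ S).powerset.filter fun Y => From F Δ e p b δ S A' Y).card : ℝ) ≤
        2 ^ (A' \ S).card * ((1 + M ^ 2 * η) ^ k *
          Real.exp (-(θ * ((A' \ S).card - δ - k * t)))) := by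
  intro k
  induction k with
  | zero =>
    intro p δ S hpb hb hSA
    have hp : p = b := by omega
    subst hp
    by_cases hne : ((A' \ S).powerset.filter fun Y => From F Δ e p p δ S A' Y).Nonempty
    · obtain ⟨Y, hY⟩ := hne
      rw [mem_filter] at hY
      obtain ⟨T, _, h1, h2, h3, h4⟩ := hY.2
      have hT := h4.refl_eq
      subst hT
      have hle : (((T \ S).powerset.filter fun Y => From F Δ e p p δ S T Y).card : ℝ) ≤
          2 ^ (T \ S).card := by
        have := (card_filter_le (T \ S).powerset (fun Y => From F Δ e p p δ S T Y)).trans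
          (card_powerset _).le
        exact_mod_cast this
      refine hle.trans (le_mul_of_one_le_right (by positivity) ?_)
      rw [pow_zero, one_mul]
      apply Real.one_le_exp
      have h5 : ((T \ S).card : ℝ) ≤ δ := by exact_mod_cast h3
      have : θ * (((T \ S).card : ℝ) - δ - ((0 : ℕ) : ℝ) * t) ≤ 0 := by
        apply mul_nonpos_of_nonneg_of_nonpos hθ
        simp
        linarith
      linarith
    · rw [not_nonempty_iff_eq_empty] at hne
      rw [hne, card_empty, Nat.cast_zero]
      positivity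
  | succ k ih =>
    intro p δ S hpb hb hSA
    obtain ⟨p', hp'⟩ : ∃ p', p' = min (p + l) b := ⟨_, rfl⟩
    have hpp' : p ≤ p' := by omega
    have hp'b : p' ≤ b := by omega
    have hl : p' - p ≤ l := by omega
    have hb' : b ≤ p' + k * l := by
      rw [Nat.succ_mul] at hb
      omega
    -- the pairs of sets
    let P : Finset (Finset V × Finset V) := (F p ×ˢ F p').filter fun q =>
      S ⊆ q.1 ∧ q.1 ⊆ q.2 ∧ q.2 ⊆ A' ∧ (q.1 \ S).card ≤ δ ∧ t ≤ (q.2 \ q.1).card
    have hPc : (P.card : ℝ) ≤ M ^ 2 := by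
      have h1 : P.card ≤ M * M := by
        refine (card_filter_le _ _).trans ?_
        rw [card_product]
        exact Nat.mul_le_mul (hF p) (hF p')
      have h2 : (P.card : ℝ) ≤ ((M * M : ℕ) : ℝ) := by exact_mod_cast h1
      rw [pow_two]
      exact_mod_cast h1
    have hsub : ((A' \ S).powerset.filter fun Y => From F Δ e p b δ S A' Y) ⊆
        ((A' \ S).powerset.filter fun Y => From F Δ e p' b (δ + t) S A' Y) ∪
        P.biUnion fun q => (A' \ S).powerset.filter fun Y =>
          Chain F Δ e p p' q.1 q.2 (Y ∩ (q.2 \ q.1)) ∧ From F Δ e p' b 0 q.2 A' (Y ∩ (A' \ q.2)) := by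
      intro Y hY
      rw [mem_filter] at hY
      obtain ⟨hYs, T, hT, h1, h2, h3, h4⟩ := hY
      obtain ⟨T', hT', h5, h6, h7, h8⟩ := h4.split hpp' hp'b
      rw [mem_union, mem_filter, mem_biUnion]
      by_cases ht : t ≤ (T' \ T).card
      · right
        refine ⟨(T, T'), ?_, ?_⟩
        · rw [mem_filter, mem_product]
          exact ⟨⟨hT, hT'⟩, h1, h5, h6, h3, ht⟩
        · rw [mem_filter]
          refine ⟨hYs, h7.inter _ Subset.rfl, T', hT', Subset.rfl, h6, by simp, ?_⟩
          exact h8.inter _ Subset.rfl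
      · left
        refine ⟨hYs, T', hT', h1.trans h5, h6, ?_, h8⟩
        have h9 : T' \ S ⊆ (T \ S) ∪ (T' \ T) := by
          intro i hi
          rw [mem_sdiff] at hi
          rw [mem_union, mem_sdiff, mem_sdiff]
          by_cases hiT : i ∈ T
          · exact Or.inl ⟨hiT, hi.2⟩
          · exact Or.inr ⟨hi.1, hiT⟩
        have h10 := (card_le_card h9).trans (card_union_le _ _)
        omega
    set W : ℝ := 2 ^ (A' \ S).card * ((1 + M ^ 2 * η) ^ k *
      Real.exp (-(θ * ((A' \ S).card - δ - (k + 1) * t)))) with hW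
    have hW0 : 0 ≤ W := by positivity
    have hX1 : (((A' \ S).powerset.filter fun Y => From F Δ e p' b (δ + t) S A' Y).card : ℝ) ≤
        W := by
      refine (ih p' (δ + t) S hp'b hb' hSA).trans (le_of_eq ?_)
      rw [hW]
      congr 4
      push_cast
      ring
    have hX2 : ∀ q ∈ P, ((((A' \ S).powerset.filter fun Y =>
          Chain F Δ e p p' q.1 q.2 (Y ∩ (q.2 \ q.1)) ∧
            From F Δ e p' b 0 q.2 A' (Y ∩ (A' \ q.2))).card : ℕ) : ℝ) ≤ η * W := by
      rintro ⟨T, T'⟩ hq
      rw [mem_filter, mem_product] at hq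
      obtain ⟨_, h1, h2, h3, h4, h5⟩ := hq
      simp only at h1 h2 h3 h4 h5
      have c0 := three_parts h1 h2 h3 (fun Y => Chain F Δ e p p' T T' Y)
        (fun Y => From F Δ e p' b 0 T' A' Y)
      have c1 := hS p p' hpp' hl T T' h2 h5
      have c2 := ih p' 0 T' hp'b hb' h3
      rw [Nat.cast_zero] at c2
      have c3 : ((((A' \ S).powerset.filter fun Y =>
          Chain F Δ e p p' T T' (Y ∩ (T' \ T)) ∧
            From F Δ e p' b 0 T' A' (Y ∩ (A' \ T'))).card : ℕ) : ℝ) ≤
          2 ^ (T \ S).card * (2 ^ (T' \ T).card * (η * Real.exp (-(θ * (T' \ T).card)))) *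
            (2 ^ (A' \ T').card * ((1 + M ^ 2 * η) ^ k *
              Real.exp (-(θ * ((A' \ T').card - 0 - k * t))))) := by
        refine le_trans (b := (((2 ^ (T \ S).card * ((T' \ T).powerset.filter
          fun Y => Chain F Δ e p p' T T' Y).card *
            ((A' \ T').powerset.filter fun Y => From F Δ e p' b 0 T' A' Y).card : ℕ)) : ℝ)) ?_ ?_
        · exact_mod_cast c0
        · push_cast
          exact mul_le_mul (mul_le_mul_of_nonneg_left c1 (by positivity)) c2 (by positivity)
            (by positivity)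
      refine c3.trans ?_
      have hcard : (A' \ S).card = (T \ S).card + (T' \ T).card + (A' \ T').card := by
        have e1 := card_sdiff_add_card_eq_card h1
        have e2 := card_sdiff_add_card_eq_card h2
        have e3 := card_sdiff_add_card_eq_card h3
        have e4 := card_sdiff_add_card_eq_card hSA
        omega
      have hexp : Real.exp (-(θ * (T' \ T).card)) * Real.exp (-(θ * ((A' \ T').card - 0 - k * t))) ≤
          Real.exp (-(θ * ((A' \ S).card - δ - (k + 1) * t))) := by
        rw [← Real.exp_add]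
        apply Real.exp_le_exp.2
        have h6 : ((T \ S).card : ℝ) ≤ δ := by exact_mod_cast h4
        have h7 : ((A' \ S).card : ℝ) = (T \ S).card + (T' \ T).card + (A' \ T').card := by
          exact_mod_cast hcard
        have h8 : θ * (((A' \ S).card : ℝ) - δ - (k + 1) * t) ≤
              θ * ((T' \ T).card + ((A' \ T').card - 0 - k * t)) := by
          apply mul_le_mul_of_nonneg_left _ hθ
          have : (0 : ℝ) ≤ t := Nat.cast_nonneg _
          rw [h7]
          push_cast
          linarith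
        linarith
      calc _ = (2 ^ (T \ S).card * 2 ^ (T' \ T).card * 2 ^ (A' \ T').card) * η *
            (1 + M ^ 2 * η) ^ k * (Real.exp (-(θ * (T' \ T).card)) *
              Real.exp (-(θ * ((A' \ T').card - 0 - k * t)))) := by ring
        _ ≤ (2 ^ (T \ S).card * 2 ^ (T' \ T).card * 2 ^ (A' \ T').card) * η *
            (1 + M ^ 2 * η) ^ k * Real.exp (-(θ * ((A' \ S).card - δ - (k + 1) * t))) :=
            mul_le_mul_of_nonneg_left hexp (by positivity)
        _ = η * W := by
            rw [hW, hcard, pow_add, pow_add]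
            ring
    have hsum : ((((A' \ S).powerset.filter fun Y => From F Δ e p b δ S A' Y).card : ℕ) : ℝ) ≤
        W + P.card * (η * W) := by
      have h1 := (card_le_card hsub).trans ((card_union_le _ _).trans
        (Nat.add_le_add_left card_biUnion_le _))
      have h2 : ((((A' \ S).powerset.filter fun Y => From F Δ e p b δ S A' Y).card : ℕ) : ℝ) ≤
          (((A' \ S).powerset.filter fun Y => From F Δ e p' b (δ + t) S A' Y).card : ℝ) +
          ∑ q ∈ P, ((((A' \ S).powerset.filter fun Y =>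
            Chain F Δ e p p' q.1 q.2 (Y ∩ (q.2 \ q.1)) ∧
              From F Δ e p' b 0 q.2 A' (Y ∩ (A' \ q.2))).card : ℕ) : ℝ) := by
        exact_mod_cast h1
      refine h2.trans (add_le_add hX1 ?_)
      refine (sum_le_card_nsmul P _ _ hX2).trans (le_of_eq ?_)
      rw [nsmul_eq_mul]
    refine hsum.trans ?_
    calc W + P.card * (η * W) ≤ W + M ^ 2 * (η * W) :=
          add_le_add le_rfl (mul_le_mul_of_nonneg_right hPc (by positivity))
      _ = 2 ^ (A' \ S).card * ((1 + M ^ 2 * η) ^ (k + 1) *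
          Real.exp (-(θ * ((A' \ S).card - δ - ((k + 1 : ℕ) : ℝ) * t)))) := by
          rw [hW]
          push_cast
          ring

end Pool.Agent.TH708.Nar
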