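import Pool.Agent.TH708.Nar.Sem

/-!
# The layers of one accepting run
-/

set_option autoImplicit false
set_option linter.unusedSectionVars false

namespace Pool.Agent.TH708.Nar

open Finset Pool.Agent.TH708.Dec

/-- The AND and OR gates lie in layers, every wire between two gates joins consecutive layers, and
each layer has at most `w` gates.  Literals and constants can be used everywhere. -/
def Layered {I : Type} (C : Ckt I) (w : ℕ) : Prop :=
  ∃ lay : C.G → ℕ, (∀ p a b, (C.kind p = Kind.and a b ∨ C.kind p = Kind.or a b) →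
      (IsGate C a → lay a = lay p + 1) ∧ (IsGate C b → lay b = lay p + 1)) ∧
    ∀ (j : ℕ) (S : Finset C.G), (∀ g ∈ S, IsGate C g ∧ lay g = j) → S.card ≤ w

section

variable {I : Type} [DecidableEq I] {V : Type} [DecidableEq V] [Fintype V] {C : Ckt I}
  {e : V → I} {ρ : I → Bool} {Y : Finset V} {σ : V → V}

open Classical in
/-- The selected children of a gate on an input. -/
noncomputable def sel (C : Ckt I) (z : I → Bool) (g : C.G) : Finset C.G :=
  match C.kind g with
  | Kind.and a b => {a, b}
  | Kind.or a b => if (C.tree a).eval z = true then {a} else {b}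
  | _ => ∅

theorem sel_and {z : I → Bool} {g a b : C.G} (h : C.kind g = Kind.and a b) [DecidableEq C.G] :
    sel C z g = {a, b} := by
  unfold sel
  rw [h]
  ext c
  simp

theorem sel_or {z : I → Bool} {g a b : C.G} (h : C.kind g = Kind.or a b) :
    sel C z g = if (C.tree a).eval z = true then {a} else {b} := by
  unfold sel
  rw [h]

theorem not_flip (S : Sit C e ρ Y σ) {x : V → Bool} (hx : ∀ y ∈ Y, x y = x (σ y)) (i : V) :
    ¬ ∀ y ∈ Y, Function.update x i (!x i) y = Function.update x i (!x i) (σ y) := by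
  intro h
  by_cases hi : i ∈ Y
  · have h1 := h i hi
    have hne : σ i ≠ i := fun he => S.out i hi (by rw [he]; exact hi)
    rw [Function.update_self, Function.update_of_ne hne, ← hx i hi] at h1
    cases x i <;> simp at h1
  · obtain ⟨y, hy, rfl⟩ := S.surj hi
    have h1 := h y hy
    have hne : y ≠ σ y := fun he => hi (he ▸ hy)
    rw [Function.update_self, Function.update_of_ne hne, ← hx y hy] at h1
    cases x y <;> simp at h1

theorem vs_exact (S : Sit C e ρ Y σ) {x : V → Bool} {p c : C.G} (hx : ∀ y ∈ Y, x y = x (σ y))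
    (hp : Use C (merge e ρ x) p) (hc : (C.tree c).eval (merge e ρ x) = true)
    (himp : ∀ z, (C.tree c).eval z = true → (C.tree p).eval z = true) :
    vs C e p ⊆ vs C e c := by
  intro i hi
  by_contra hic
  apply not_flip S hx i
  have h1 : Use C (merge e ρ (Function.update x i (!x i))) p := by
    apply S.use_congr hp
    intro j hj
    have : j ≠ i := fun h => hj (h ▸ hi)
    rw [Function.update_of_ne this]
  have h2 : (C.tree c).eval (merge e ρ (Function.update x i (!x i))) = true := by
    rw [← S.eval_congr (x := x)]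
    · exact hc
    · intro j hj
      have : j ≠ i := fun h => hic (h ▸ hj)
      rw [Function.update_of_ne this]
  exact (S.eval _).1 (h1.sound (himp _ h2))

theorem vs_out (S : Sit C e ρ Y σ) {x : V → Bool} (hx : ∀ y ∈ Y, x y = x (σ y)) :
    vs C e C.out = univ := by
  rw [eq_univ_iff_forall]
  intro i
  by_contra hic
  apply not_flip S hx i
  have h1 : C.eval (merge e ρ x) = true := (S.eval x).2 hx
  refine (S.eval _).1 ?_
  unfold Ckt.eval at h1 ⊢
  rw [← S.eval_congr (x := x)]
  · exact h1
  · intro j hj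
    have : j ≠ i := fun h => hic (h ▸ hj)
    rw [Function.update_of_ne this]

theorem vs_and {g a b : C.G} (h : C.kind g = Kind.and a b) :
    vs C e g = vs C e a ∪ vs C e b := by
  ext i
  rw [mem_union, mem_vs, mem_vs, mem_vs, tree_and C _ _ _ h]
  simp only [Fm.deg]
  omega

theorem vs_or {g a b : C.G} (h : C.kind g = Kind.or a b) :
    vs C e g = vs C e a ∪ vs C e b := by
  ext i
  rw [mem_union, mem_vs, mem_vs, mem_vs, tree_or C _ _ _ h]
  simp only [Fm.deg]
  omega

theorem vs_small (he : Function.Injective e) {g : C.G} (h : ¬ IsGate C g) :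
    (vs C e g).card ≤ 1 := by
  rw [card_le_one]
  intro i hi j hj
  rw [mem_vs] at hi hj
  cases hk : C.kind g with
  | lit v b =>
    rw [tree_lit C g v b hk] at hi hj
    simp only [Fm.deg] at hi hj
    apply he
    by_cases h1 : v = e i
    · by_cases h2 : v = e j
      · rw [← h1, ← h2]
      · rw [if_neg h2] at hj; omega
    · rw [if_neg h1] at hi; omega
  | cst b =>
    rw [tree_cst C g b hk] at hi
    simp [Fm.deg] at hi
  | and a b => exact absurd ⟨a, b, Or.inl hk⟩ h
  | or a b => exact absurd ⟨a, b, Or.inr hk⟩ h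

theorem sel_spec (S : Sit C e ρ Y σ) {x : V → Bool} {g : C.G} (hg : Rc C e ρ g x)
    (hgate : IsGate C g) :
    (sel C (merge e ρ x) g).card ≤ 2 ∧
    (∀ c ∈ sel C (merge e ρ x) g, Rc C e ρ c x ∧ vs C e c ⊆ vs C e g ∧
      ∃ a b, (C.kind g = Kind.and a b ∨ C.kind g = Kind.or a b) ∧ (c = a ∨ c = b)) ∧
    vs C e g ⊆ (sel C (merge e ρ x) g).biUnion (vs C e) ∧
    ∀ c ∈ sel C (merge e ρ x) g, ∀ c' ∈ sel C (merge e ρ x) g, c ≠ c' →
      Disjoint (vs C e c) (vs C e c') := by
  classical
  obtain ⟨a, b, h | h⟩ := hgate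
  · rw [sel_and h]
    have h1 := hg.2
    rw [tree_and C _ _ _ h] at h1
    simp only [Fm.eval, Bool.and_eq_true] at h1
    have hdis : Disjoint (vs C e a) (vs C e b) := by
      rw [disjoint_left]
      intro i hi hi'
      rw [mem_vs] at hi hi'
      have h2 := hg.1.deg_le (e i)
      rw [tree_and C _ _ _ h] at h2
      simp only [Fm.deg] at h2
      have h3 := S.deg i
      omega
    refine ⟨card_le_two, ?_, ?_, ?_⟩
    · intro c hc
      rw [mem_insert, mem_singleton] at hc
      rcases hc with rfl | rfl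
      · refine ⟨⟨Use.andl hg.1 h h1.2, h1.1⟩, ?_, c, b, Or.inl h, Or.inl rfl⟩
        rw [vs_and h]; exact subset_union_left
      · refine ⟨⟨Use.andr hg.1 h h1.1, h1.2⟩, ?_, a, c, Or.inl h, Or.inr rfl⟩
        rw [vs_and h]; exact subset_union_right
    · rw [vs_and h]
      intro i hi
      rw [mem_union] at hi
      rw [mem_biUnion]
      rcases hi with hi | hi
      · exact ⟨a, by simp, hi⟩
      · exact ⟨b, by simp, hi⟩
    · intro c hc c' hc' hne
      rw [mem_insert, mem_singleton] at hc hc'
      rcases hc with rfl | rfl <;> rcases hc' with rfl | rfl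
      · exact absurd rfl hne
      · exact hdis
      · exact hdis.symm
      · exact absurd rfl hne
  · rw [sel_or h]
    have hacc := hg.acc S
    have h1 := hg.2
    rw [tree_or C _ _ _ h] at h1
    simp only [Fm.eval, Bool.or_eq_true] at h1
    by_cases ha : (C.tree a).eval (merge e ρ x) = true
    · rw [if_pos ha]
      refine ⟨by simp, ?_, ?_, ?_⟩
      · intro c hc
        rw [mem_singleton] at hc
        subst hc
        refine ⟨⟨Use.orl hg.1 h, ha⟩, ?_, c, b, Or.inr h, Or.inl rfl⟩
        rw [vs_or h]; exact subset_union_left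
      · rw [singleton_biUnion]
        refine vs_exact S hacc hg.1 ha fun z hz => ?_
        rw [tree_or C _ _ _ h]; simp [Fm.eval, hz]
      · intro c hc c' hc' hne
        rw [mem_singleton] at hc hc'
        exact absurd (hc.trans hc'.symm) hne
    · rw [if_neg ha]
      have hb : (C.tree b).eval (merge e ρ x) = true := by
        rcases h1 with h1 | h1
        · exact absurd h1 ha
        · exact h1
      refine ⟨by simp, ?_, ?_, ?_⟩
      · intro c hc
        rw [mem_singleton] at hc
        subst hc
        refine ⟨⟨Use.orr hg.1 h, hb⟩, ?_, a, c, Or.inr h, Or.inr rfl⟩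
        rw [vs_or h]; exact subset_union_right
      · rw [singleton_biUnion]
        refine vs_exact S hacc hg.1 hb fun z hz => ?_
        rw [tree_or C _ _ _ h]; simp [Fm.eval, hz]
      · intro c hc c' hc' hne
        rw [mem_singleton] at hc hc'
        exact absurd (hc.trans hc'.symm) hne

open Classical in
/-- The selected gates of a layer. -/
noncomputable def lyr (C : Ckt I) (e : V → I) (z : I → Bool) : ℕ → Finset C.G
  | 0 => {C.out}
  | m + 1 => ((lyr C e z m).biUnion (sel C z)).filter fun c => IsGate C c ∧ (vs C e c).Nonempty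

theorem mem_lyr_succ {z : I → Bool} {m : ℕ} {c : C.G} :
    c ∈ lyr C e z (m + 1) ↔ (∃ p ∈ lyr C e z m, c ∈ sel C z p) ∧ IsGate C c ∧
      (vs C e c).Nonempty := by
  classical
  rw [lyr, mem_filter, mem_biUnion]

theorem lyr_spec (S : Sit C e ρ Y σ) {x : V → Bool} (hx : ∀ y ∈ Y, x y = x (σ y))
    (hV : 2 ≤ Fintype.card V) : ∀ m : ℕ,
    (∀ g ∈ lyr C e (merge e ρ x) m, IsGate C g ∧ Rc C e ρ g x ∧ (vs C e g).Nonempty) ∧
    ∀ g ∈ lyr C e (merge e ρ x) m, ∀ g' ∈ lyr C e (merge e ρ x) m, g ≠ g' →
      Disjoint (vs C e g) (vs C e g') := by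
  intro m
  induction m with
  | zero =>
    have hout := vs_out S hx
    refine ⟨?_, ?_⟩
    · intro g hg
      rw [lyr, mem_singleton] at hg
      subst hg
      refine ⟨?_, ⟨Use.out, (S.eval x).2 hx⟩, ?_⟩
      · by_contra h
        have := vs_small S.inj h
        rw [hout, card_univ] at this
        omega
      · rw [hout, ← card_pos, card_univ]
        omega
    · intro g hg g' hg' hne
      rw [lyr, mem_singleton] at hg hg'
      exact absurd (hg.trans hg'.symm) hne
  | succ m ih =>
    obtain ⟨ih1, ih2⟩ := ih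
    refine ⟨?_, ?_⟩
    · intro g hg
      rw [mem_lyr_succ] at hg
      obtain ⟨⟨p, hp, hc⟩, h1, h2⟩ := hg
      obtain ⟨h3, h4, h5⟩ := ih1 p hp
      exact ⟨h1, ((sel_spec S h4 h3).2.1 g hc).1, h2⟩
    · intro g hg g' hg' hne
      rw [mem_lyr_succ] at hg hg'
      obtain ⟨⟨p, hp, hc⟩, h1, h2⟩ := hg
      obtain ⟨⟨p', hp', hc'⟩, h1', h2'⟩ := hg'
      obtain ⟨h3, h4, h5⟩ := ih1 p hp
      obtain ⟨h3', h4', h5'⟩ := ih1 p' hp'
      have a := sel_spec S h4 h3
      have a' := sel_spec S h4' h3'
      by_cases hpp : p = p'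
      · subst hpp
        exact a.2.2.2 g hc g' hc' hne
      · exact disjoint_of_subset_left (a.2.1 g hc).2.1
          (disjoint_of_subset_right (a'.2.1 g' hc').2.1 (ih2 p hp p' hp' hpp))

/-- **The layers of one accepting run.** -/
theorem Sit.cut (S : Sit C e ρ Y σ) {x : V → Bool} (hx : ∀ y ∈ Y, x y = x (σ y))
    (hV : 2 ≤ Fintype.card V) {s : ℕ} (hn : ∀ g, Rc C e ρ g x → Near s (vs C e g) Y)
    (lay : C.G → ℕ) (hl : ∀ p a b, (C.kind p = Kind.and a b ∨ C.kind p = Kind.or a b) →
      (IsGate C a → lay a = lay p + 1) ∧ (IsGate C b → lay b = lay p + 1)) {w : ℕ}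
    (hw : ∀ (j : ℕ) (T : Finset C.G), (∀ g ∈ T, IsGate C g ∧ lay g = j) → T.card ≤ w)
    (t : ℕ) (ht : 1 ≤ t) (htV : t ≤ Fintype.card V) :
    ∃ G : ℕ → Finset C.G,
      (∀ m, ∀ g ∈ G m, IsGate C g ∧ lay g = lay C.out + m ∧ t ≤ (vs C e g).card ∧
        Near s (vs C e g) Y) ∧
      (∀ m, ∀ g ∈ G m, ∀ g' ∈ G m, g ≠ g' → Disjoint (vs C e g) (vs C e g')) ∧
      (∀ m, (G (m + 1)).biUnion (vs C e) ⊆ (G m).biUnion (vs C e) ∧
        ((G m).biUnion (vs C e) \ (G (m + 1)).biUnion (vs C e)).card ≤ w * (2 * t)) ∧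
      (G 0).biUnion (vs C e) = univ ∧ (G C.size).biUnion (vs C e) = ∅ := by
  classical
  set z := merge e ρ x with hz
  have hspec := lyr_spec S hx hV
  have hlay : ∀ m, ∀ g ∈ lyr C e z m, lay g = lay C.out + m := by
    intro m
    induction m with
    | zero =>
      intro g hg
      rw [lyr, mem_singleton] at hg
      rw [hg]; rfl
    | succ m ih =>
      intro g hg
      rw [mem_lyr_succ] at hg
      obtain ⟨⟨p, hp, hc⟩, h1, h2⟩ := hg
      obtain ⟨h3, h4, h5⟩ := (hspec m).1 p hp
      obtain ⟨_, _, a, b, hk, hab⟩ := (sel_spec S h4 h3).2.1 g hc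
      have h6 := ih p hp
      have h7 := hl p a b hk
      rcases hab with rfl | rfl
      · rw [h7.1 h1, h6]; ring
      · rw [h7.2 h1, h6]; ring
  have hcard : ∀ m, (lyr C e z m).card ≤ w := fun m =>
    hw (lay C.out + m) _ fun g hg => ⟨((hspec m).1 g hg).1, hlay m g hg⟩
  refine ⟨fun m => (lyr C e z m).filter fun g => t ≤ (vs C e g).card, ?_, ?_, ?_, ?_, ?_⟩
  · intro m g hg
    rw [mem_filter] at hg
    exact ⟨((hspec m).1 g hg.1).1, hlay m g hg.1, hg.2, hn g ((hspec m).1 g hg.1).2.1⟩
  · intro m g hg g' hg' hne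
    rw [mem_filter] at hg hg'
    exact (hspec m).2 g hg.1 g' hg'.1 hne
  · intro m
    refine ⟨?_, ?_⟩
    · intro i hi
      rw [mem_biUnion] at hi ⊢
      obtain ⟨c, hc, hi⟩ := hi
      rw [mem_filter, mem_lyr_succ] at hc
      obtain ⟨⟨⟨p, hp, hc⟩, h1, h2⟩, hct⟩ := hc
      obtain ⟨h3, h4, h5⟩ := (hspec m).1 p hp
      have h6 := ((sel_spec S h4 h3).2.1 c hc).2.1
      refine ⟨p, ?_, h6 hi⟩
      rw [mem_filter]
      exact ⟨hp, hct.trans (card_le_card h6)⟩
    · have hsub : ((lyr C e z m).filter fun g => t ≤ (vs C e g).card).biUnion (vs C e) \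
          ((lyr C e z (m + 1)).filter fun g => t ≤ (vs C e g).card).biUnion (vs C e) ⊆
          (lyr C e z m).biUnion fun p => ((sel C z p).filter fun c => (vs C e c).card ≤ t).biUnion
            (vs C e) := by
        intro i hi
        rw [mem_sdiff, mem_biUnion] at hi
        obtain ⟨⟨p, hp, hip⟩, hi2⟩ := hi
        rw [mem_filter] at hp
        obtain ⟨h3, h4, h5⟩ := (hspec m).1 p hp.1
        have h6 := sel_spec S h4 h3
        have h7 := h6.2.2.1 hip
        rw [mem_biUnion] at h7
        obtain ⟨c, hc, hic⟩ := h7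
        rw [mem_biUnion]
        refine ⟨p, hp.1, ?_⟩
        rw [mem_biUnion]
        refine ⟨c, ?_, hic⟩
        rw [mem_filter]
        refine ⟨hc, ?_⟩
        by_contra hct
        push Not at hct
        apply hi2
        rw [mem_biUnion]
        refine ⟨c, ?_, hic⟩
        rw [mem_filter, mem_lyr_succ]
        refine ⟨⟨⟨p, hp.1, hc⟩, ?_, ⟨i, hic⟩⟩, hct.le⟩
        by_contra hng
        have := vs_small S.inj hng
        omega
      refine (card_le_card hsub).trans ?_
      refine (card_biUnion_le_card_mul _ _ (2 * t) ?_).trans (Nat.mul_le_mul_right _ (hcard m))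
      intro p hp
      obtain ⟨h3, h4, h5⟩ := (hspec m).1 p hp
      have h6 := sel_spec S h4 h3
      refine (card_biUnion_le_card_mul _ _ t ?_).trans (Nat.mul_le_mul_right _ ?_)
      · intro c hc
        rw [mem_filter] at hc
        exact hc.2
      · exact (card_filter_le _ _).trans h6.1
  · have h0 : (lyr C e z 0).filter (fun g => t ≤ (vs C e g).card) = {C.out} := by
      rw [lyr]
      apply filter_true_of_mem
      intro g hg
      rw [mem_singleton] at hg
      rw [hg, vs_out S hx, card_univ]
      exact htV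
    simp only [h0]
    rw [singleton_biUnion, vs_out S hx]
  · have hne : ∀ m, (lyr C e z m).Nonempty → ∀ j ≤ m, (lyr C e z j).Nonempty := by
      intro m
      induction m with
      | zero =>
        intro h j hj
        have : j = 0 := by omega
        subst this
        exact h
      | succ m ih =>
        intro h j hj
        rcases Nat.lt_or_ge j (m + 1) with hlt | hge
        · obtain ⟨g, hg⟩ := h
          rw [mem_lyr_succ] at hg
          obtain ⟨⟨p, hp, _⟩, _⟩ := hg
          exact ih ⟨p, hp⟩ j (by omega)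
        · have : j = m + 1 := by omega
          rw [this]; exact h
    have hempty : lyr C e z C.size = ∅ := by
      by_contra hcon
      have h1 := hne C.size (nonempty_iff_ne_empty.2 hcon)
      have h2 : (range (C.size + 1)).card ≤ (univ : Finset C.G).card := by
        apply card_le_card_of_surjOn (fun g => lay g - lay C.out)
        intro j hj
        rw [mem_coe, mem_range] at hj
        obtain ⟨g, hg⟩ := h1 j (by omega)
        refine ⟨g, mem_coe.2 (mem_univ _), ?_⟩
        simp only
        rw [hlay j g hg]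
        omega
      rw [card_range, card_univ] at h2
      unfold Ckt.size at h2
      omega
    simp only [hempty]
    simp

end

end Pool.Agent.TH708.Nar
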