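import Pool.Agent.TH708.Nar.Num

/-!
# Narrow circuits for the typed bracket language
-/

set_option autoImplicit false
set_option linter.unusedSectionVars false

namespace Pool.Agent.TH708.Nar

open Finset Pool.Agent.TH708.Dec

theorem dyck_sit {n : ℕ} (C : Ckt (Fin n × Fin 3))
    (hC : ∀ z, Dyck (untyped z) → (C.eval z = true ↔ Dyck z))
    (W : Finset (Fin n)) (hd : ∀ i ∈ W, C.deg (i, 2) ≤ 1) (Y : Finset ↥W)
    (hY2 : 2 * Y.card = W.card) :
    ∃ (ρ : Fin n × Fin 3 → Bool) (σ : ↥W → ↥W), Sit C (fun i : ↥W => (i.1, (2 : Fin 3))) ρ Y σ := by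
  classical
  let e : ↥W → Fin n × Fin 3 := fun i => (i.1, 2)
  have he : Function.Injective e := fun a b h => Subtype.ext (congrArg Prod.fst h)
  -- the matching
  let toN : ↥W → ℕ := fun i => (i.1 : ℕ)
  have htoN : Function.Injective toN := fun a b h => Subtype.ext (Fin.ext h)
  let WN : Finset ℕ := W.image Fin.val
  let YN : Finset ℕ := Y.image toN
  have hYW : YN ⊆ WN := by
    intro i hi
    rw [mem_image] at hi
    obtain ⟨a, _, rfl⟩ := hi
    exact mem_image.2 ⟨a.1, a.2, rfl⟩
  have hYc : YN.card = Y.card := card_image_of_injective _ htoN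
  have hWc : WN.card = W.card := card_image_of_injective _ Fin.val_injective
  obtain ⟨π, hπ⟩ := exists_match Y.card WN YN hYW hYc (by
    rw [card_sdiff_of_subset hYW, hYc, hWc]; omega)
  have hmemW : ∀ i : ↥W, ∃ j : ↥W, toN j = π (toN i) := by
    intro i
    have := hπ.mem (toN i) (mem_image.2 ⟨i.1, i.2, rfl⟩)
    rw [mem_image] at this
    obtain ⟨a, ha, hv⟩ := this
    exact ⟨⟨a, ha⟩, hv⟩
  choose σ hσ using hmemW
  have hmemY : ∀ i : ↥W, toN i ∈ YN ↔ i ∈ Y := by
    intro i
    rw [mem_image]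
    constructor
    · rintro ⟨a, ha, h⟩; rw [← htoN h]; exact ha
    · intro h; exact ⟨i, h, rfl⟩
  have hinW : ∀ i : ↥W, toN i ∈ WN := fun i => mem_image.2 ⟨i.1, i.2, rfl⟩
  have hσσ : ∀ i, σ (σ i) = i := by
    intro i
    apply htoN
    rw [hσ, hσ, hπ.inv _ (hinW i)]
  have hσY : ∀ i, i ∈ Y ↔ σ i ∉ Y := by
    intro i
    rw [← hmemY, ← hmemY (σ i), hσ]
    exact hπ.swap _ (hinW i)
  refine ⟨instr W π, σ, he, fun i => hd i.1 i.2, by rw [Fintype.card_coe, hY2],
    fun y hy => (hσY y).1 hy, fun a _ b _ hab => ?_, fun x => ?_⟩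
  · rw [← hσσ a, hab, hσσ]
  · set z := merge e (instr W π) x with hz
    have hz0 : ∀ i, z (i, 0) = instr W π (i, 0) := fun i =>
      merge_off e _ _ _ fun j hj => by
        have := congrArg Prod.snd hj
        simp [e] at this
    have hz1 : ∀ i, z (i, 1) = instr W π (i, 1) := fun i =>
      merge_off e _ _ _ fun j hj => by
        have := congrArg Prod.snd hj
        simp [e] at this
    have hz2 : ∀ i : ↥W, z (i.1, 2) = x i := fun i => merge_e e he _ _ i
    have hlt : ∀ i ∈ WN, i < n := by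
      intro i hi
      rw [mem_image] at hi
      obtain ⟨a, _, rfl⟩ := hi
      exact a.2
    have hbal : Dyck z ↔ ∀ y ∈ Y, x y = x (σ y) := by
      unfold Dyck
      rw [bal_iff hlt hπ (isWord_of hz0 hz1)]
      have hval : ∀ i : ↥W, (if h : toN i < n then z (⟨toN i, h⟩, 2) else false) = x i := by
        intro i
        rw [dif_pos i.1.2, ← hz2 i]
      constructor
      · intro h y _
        have := h (toN y) (hinW y)
        rw [hval y, ← hσ y, hval (σ y)] at this
        exact this
      · intro h i hi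
        obtain ⟨a, ha, rfl⟩ := mem_image.1 hi
        have h2 := hval ⟨a, ha⟩
        have h3 := hval (σ ⟨a, ha⟩)
        rw [hσ] at h3
        show (if h : (a : ℕ) < n then z (⟨(a : ℕ), h⟩, 2) else false) =
          (if h : π (a : ℕ) < n then z (⟨π (a : ℕ), h⟩, 2) else false)
        refine h2.trans (Eq.trans ?_ h3.symm)
        by_cases hy : (⟨a, ha⟩ : ↥W) ∈ Y
        · exact h _ hy
        · have h4 : σ ⟨a, ha⟩ ∈ Y := by
            by_contra hc
            exact hy ((hσY _).2 hc)
          have h5 := h _ h4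
          rw [hσσ] at h5
          exact h5.symm
    show C.eval z = true ↔ _
    rw [← hbal]
    apply hC
    unfold Dyck
    have h0' : ∀ i, untyped z (i, 0) = instr W π (i, 0) := fun i => by
      show (if (0 : Fin 3) = 2 then false else z (i, 0)) = _
      rw [if_neg (by decide)]; exact hz0 i
    have h1' : ∀ i, untyped z (i, 1) = instr W π (i, 1) := fun i => by
      show (if (1 : Fin 3) = 2 then false else z (i, 1)) = _
      rw [if_neg (by decide)]; exact hz1 i
    rw [bal_iff hlt hπ (isWord_of h0' h1')]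
    intro i _
    have hf : ∀ k : ℕ, (if h : k < n then untyped z (⟨k, h⟩, 2) else false) = false := by
      intro k
      by_cases h : k < n
      · rw [dif_pos h]; rfl
      · rw [dif_neg h]
    show (if h : i < n then untyped z (⟨i, h⟩, 2) else false) =
      (if h : π i < n then untyped z (⟨π i, h⟩, 2) else false)
    rw [hf, hf]

/-- **Width against size** for the typed bracket language. -/
theorem dyck_narrow {n : ℕ} (C : Ckt (Fin n × Fin 3))
    (hC : ∀ z, Dyck (untyped z) → (C.eval z = true ↔ Dyck z))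
    (W : Finset (Fin n)) (hd : ∀ i ∈ W, C.deg (i, 2) ≤ 1) (w : ℕ) (hw : Layered C w) :
    (Nat.log 2 W.card) ^ 2 ≤ 2 ^ 40 * ((Nat.log 2 w + 1) * (Nat.log 2 C.size + 1)) := by
  classical
  rcases Nat.eq_zero_or_pos W.card with h0 | hpos
  · rw [h0]; simp
  obtain ⟨W', hW', hc⟩ := exists_subset_card_eq (Nat.pow_log_le_self 2 hpos.ne')
  refine lower_bound C (fun i : ↥W' => (i.1, (2 : Fin 3))) (Nat.log 2 W.card) w
    (by rw [Fintype.card_coe, hc]) hw fun Y hY => ?_
  exact dyck_sit C hC W' (fun i hi => hd i (hW' hi)) Y (by rw [hY, hc])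

end Pool.Agent.TH708.Nar
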