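import Pool.Agent.TH708.Nar.Dyk

/-!
# The class separation
-/

set_option autoImplicit false

namespace Pool.Agent.TH708.Nar

open Finset Pool.Agent.TH708.Dec

/-- The gates (AND and OR) are partitioned into layers so that the gates feeding a gate of a layer
are in the previous layer; literals and constants can be used everywhere; each layer has at most
`w` gates. -/
def Width {I : Type} (C : Ckt I) (w : ℕ) : Prop :=
  ∃ L : C.G → ℕ, (∀ p a b, (C.kind p = Kind.and a b ∨ C.kind p = Kind.or a b) →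
      (IsGate C a → L p = L a + 1) ∧ (IsGate C b → L p = L b + 1)) ∧
    ∀ (j : ℕ) (T : Finset C.G), (∀ g ∈ T, IsGate C g ∧ L g = j) → T.card ≤ w

theorem Width.layered {I : Type} {C : Ckt I} {w : ℕ} (h : Width C w) : Layered C w := by
  classical
  obtain ⟨L, h1, h2⟩ := h
  set B := (univ : Finset C.G).sup L with hB
  have hle : ∀ g, L g ≤ B := fun g => le_sup (mem_univ g)
  refine ⟨fun g => B - L g, ?_, ?_⟩
  · intro p a b hk
    have h := h1 p a b hk
    have hp := hle p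
    refine ⟨fun ha => ?_, fun hb => ?_⟩
    · have := h.1 ha
      simp only
      omega
    · have := h.2 hb
      simp only
      omega
  · intro j T hT
    apply h2 (B - j) T
    intro g hg
    have := hT g hg
    have hp := hle g
    refine ⟨this.1, ?_⟩
    have h3 := this.2
    simp only at h3
    omega

theorem not_narrow : ¬ ∃ c : ℕ, ∀ n : ℕ, ∃ C : Ckt (Fin n × Fin 3),
    (∀ z, C.eval z = true ↔ Dyck z) ∧ (∀ v, C.deg v ≤ 1) ∧ C.size ≤ n ^ c + c ∧
      Width C (Nat.log 2 n ^ c + c) := by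
  rintro ⟨c, h⟩
  obtain ⟨m, hm⟩ : ∃ m, m = 4 * c + 50 := ⟨_, rfl⟩
  obtain ⟨N, hN⟩ : ∃ N, N = 2 ^ m := ⟨_, rfl⟩
  obtain ⟨C, h1, h2, h3, h4⟩ := h (2 ^ N)
  have hlog : Nat.log 2 (2 ^ N) = N := Nat.log_pow (by norm_num) N
  rw [hlog] at h4
  have hb := dyck_narrow C (fun z _ => h1 z) univ (fun i _ => h2 _) _ h4.layered
  rw [card_univ, Fintype.card_fin, hlog] at hb
  have hc : c < 2 ^ c := Nat.lt_two_pow_self
  have hadd : ∀ x : ℕ, 2 ^ x + c ≤ 2 ^ (x + c) := by
    intro x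
    rw [pow_add]
    have hx : 1 ≤ 2 ^ x := Nat.one_le_two_pow
    nlinarith
  have hw : Nat.log 2 (N ^ c + c) ≤ m * c + c := by
    have : N ^ c + c ≤ 2 ^ (m * c + c) := by
      rw [hN, ← pow_mul]
      exact hadd _
    calc Nat.log 2 (N ^ c + c) ≤ Nat.log 2 (2 ^ (m * c + c)) := Nat.log_mono_right this
      _ = _ := Nat.log_pow (by norm_num) _
  have hs : Nat.log 2 C.size ≤ N * c + c := by
    have : C.size ≤ 2 ^ (N * c + c) := by
      refine h3.trans ?_
      rw [← pow_mul]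
      exact hadd _
    calc Nat.log 2 C.size ≤ Nat.log 2 (2 ^ (N * c + c)) := Nat.log_mono_right this
      _ = _ := Nat.log_pow (by norm_num) _
  have h5 : N ^ 2 ≤ 2 ^ 40 * ((m * c + c + 1) * (N * c + c + 1)) :=
    hb.trans (Nat.mul_le_mul_left _ (Nat.mul_le_mul (by omega) (by omega)))
  have hN1 : 1 ≤ N := by rw [hN]; exact Nat.one_le_two_pow
  have h6 : N * c + c + 1 ≤ N * (2 * c + 1) := by nlinarith
  have h7 : N * N ≤ N * (2 ^ 40 * ((m * c + c + 1) * (2 * c + 1))) := by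
    calc N * N = N ^ 2 := by ring
      _ ≤ 2 ^ 40 * ((m * c + c + 1) * (N * c + c + 1)) := h5
      _ ≤ 2 ^ 40 * ((m * c + c + 1) * (N * (2 * c + 1))) :=
          Nat.mul_le_mul_left _ (Nat.mul_le_mul_left _ h6)
      _ = _ := by ring
  have h8 : N ≤ 2 ^ 40 * ((m * c + c + 1) * (2 * c + 1)) := Nat.le_of_mul_le_mul_left h7 hN1
  have h9 : m * c + c + 1 ≤ (m + 1) * (c + 1) := by nlinarith
  have h10 : 2 * c + 1 ≤ 2 * (c + 1) := by omega
  have h11 : c + 1 ≤ 2 ^ c := hc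
  have h12 : m + 1 ≤ 2 ^ (2 * c + 6) := by
    rw [hm, pow_add, pow_mul]
    have : 4 ^ c = (2 ^ 2) ^ c := by norm_num
    have h13 : 1 + c * 3 ≤ 4 ^ c := by
      have := one_add_mul_le_pow (a := (3 : ℤ)) (by norm_num) c
      have h14 : (1 : ℤ) + c * 3 ≤ 4 ^ c := by norm_num at this; exact this
      exact_mod_cast h14
    rw [← this]
    omega
  have h13 : N ≤ 2 ^ (4 * c + 47) := by
    calc N ≤ 2 ^ 40 * ((m * c + c + 1) * (2 * c + 1)) := h8
      _ ≤ 2 ^ 40 * (((m + 1) * (c + 1)) * (2 * (c + 1))) :=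
          Nat.mul_le_mul_left _ (Nat.mul_le_mul h9 h10)
      _ ≤ 2 ^ 40 * ((2 ^ (2 * c + 6) * 2 ^ c) * (2 * 2 ^ c)) :=
          Nat.mul_le_mul_left _ (Nat.mul_le_mul (Nat.mul_le_mul h12 h11)
            (Nat.mul_le_mul_left _ h11))
      _ = 2 ^ (4 * c + 47) := by
          have e1 : 2 ^ (4 * c + 47) = 2 ^ 40 * ((2 ^ (2 * c + 6) * 2 ^ c) * (2 ^ 1 * 2 ^ c)) := by
            rw [← pow_add, ← pow_add, ← pow_add, ← pow_add]
            congr 1
            ring
          rw [e1, pow_one]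
  rw [hN, hm] at h13
  have := (Nat.pow_le_pow_iff_right (by norm_num : 1 < 2)).1 h13
  omega

end Pool.Agent.TH708.Nar
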