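import Pool.Agent.TH708.Nar.Count

/-!
# The lower bound for layered circuits of formal degree one
-/

set_option autoImplicit false
set_option linter.unusedSectionVars false

namespace Pool.Agent.TH708.Nar

open Finset Pool.Agent.TH708.Dec

section

variable {I : Type} [DecidableEq I] {V : Type} [DecidableEq V] [Fintype V]

theorem exists_lit (C : Ckt I) (v : I) : ∀ (d : ℕ) (g : C.G), C.rank g ≤ d →
    1 ≤ (C.tree g).deg v → ∃ g' b, C.kind g' = Kind.lit v b := by
  intro d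
  induction d using Nat.strong_induction_on with
  | _ d ih =>
    intro g hd hg
    cases hk : C.kind g with
    | lit u b =>
      rw [tree_lit C g u b hk] at hg
      simp only [Fm.deg] at hg
      by_cases h : u = v
      · subst h; exact ⟨g, b, hk⟩
      · rw [if_neg h] at hg; omega
    | cst b => rw [tree_cst C g b hk] at hg; simp [Fm.deg] at hg
    | and a b =>
      rw [tree_and C g a b hk] at hg
      simp only [Fm.deg] at hg
      have hlt := C.and_lt g a b hk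
      by_cases h : 1 ≤ (C.tree a).deg v
      · exact ih (C.rank a) (by omega) a le_rfl h
      · exact ih (C.rank b) (by omega) b le_rfl (by omega)
    | or a b =>
      rw [tree_or C g a b hk] at hg
      simp only [Fm.deg] at hg
      have hlt := C.or_lt g a b hk
      by_cases h : 1 ≤ (C.tree a).deg v
      · exact ih (C.rank a) (by omega) a le_rfl h
      · exact ih (C.rank b) (by omega) b le_rfl (by omega)

theorem Sit.size_ge {C : Ckt I} {e : V → I} {ρ : I → Bool} {Y : Finset V} {σ : V → V}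
    (S : Sit C e ρ Y σ) : Fintype.card V ≤ C.size := by
  classical
  have hout := vs_out S (x := fun _ => true) (fun _ _ => rfl)
  have h : ∀ i : V, ∃ g' b, C.kind g' = Kind.lit (e i) b := by
    intro i
    apply exists_lit C (e i) (C.rank C.out) C.out le_rfl
    rw [← mem_vs, hout]
    exact mem_univ i
  choose f b hf using h
  unfold Ckt.size
  apply Fintype.card_le_of_injective f
  intro i j hij
  have h1 := hf i
  rw [hij, hf j] at h1
  injection h1 with h2 _
  exact S.inj h2.symm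

/-- **The lower bound.**  If the circuit, for every half `Y` of its `2^N` tracked inputs, checks a
matching of `Y` with its complement for some side input, then either it is wide or it is large. -/
theorem lower_bound (C : Ckt I) (e : V → I) (N w : ℕ) (hV : Fintype.card V = 2 ^ N)
    (hlay : Layered C w)
    (hS : ∀ Y : Finset V, 2 * Y.card = 2 ^ N → ∃ (ρ : I → Bool) (σ : V → V), Sit C e ρ Y σ) :
    N ^ 2 ≤ 2 ^ 40 * ((Nat.log 2 w + 1) * (Nat.log 2 C.size + 1)) := by
  classical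
  obtain ⟨ω, hω⟩ : ∃ ω, ω = Nat.log 2 w + 1 := ⟨_, rfl⟩
  obtain ⟨σ, hσ⟩ : ∃ σ, σ = Nat.log 2 C.size + 1 := ⟨_, rfl⟩
  rw [← hω, ← hσ]
  by_contra hcon
  push Not at hcon
  have hω1 : 1 ≤ ω := by omega
  have hσ1 : 1 ≤ σ := by omega
  have hprod : 1 ≤ ω * σ := Nat.one_le_iff_ne_zero.2 (by positivity)
  have hN20 : 2 ^ 20 < N := by
    by_contra h
    push Not at h
    have : N ^ 2 ≤ (2 ^ 20) ^ 2 := Nat.pow_le_pow_left h 2
    have h2 : (2 ^ 20) ^ 2 = 2 ^ 40 := by norm_num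
    omega
  have hw : w + 1 ≤ 2 ^ ω := by rw [hω]; exact Nat.lt_pow_succ_log_self (by norm_num) w
  have hs : C.size < 2 ^ σ := by rw [hσ]; exact Nat.lt_pow_succ_log_self (by norm_num) _
  obtain ⟨N', hN'⟩ : ∃ N', N = N' + 1 := ⟨N - 1, by omega⟩
  have hVk : Fintype.card V = 2 * 2 ^ N' := by rw [hV, hN', pow_succ]; ring
  -- a set of half the size
  have hhalf : ∃ Y : Finset V, Y.card = 2 ^ N' := by
    obtain ⟨Y, _, hY⟩ := exists_subset_card_eq (s := (univ : Finset V)) (n := 2 ^ N')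
      (by rw [card_univ, hVk]; omega)
    exact ⟨Y, hY⟩
  have hσN : N ≤ σ := by
    obtain ⟨Y, hY⟩ := hhalf
    obtain ⟨ρ, π, S⟩ := hS Y (by rw [hY, hN', pow_succ]; ring)
    have h1 := S.size_ge
    rw [hV] at h1
    exact ((Nat.pow_lt_pow_iff_right (by norm_num : 1 < 2)).1 (lt_of_le_of_lt h1 hs)).le
  obtain ⟨r, hr⟩ : ∃ r, r = N / 256 := ⟨_, rfl⟩
  have hr12 : 2 ^ 12 ≤ r := by omega
  have hNr : N ≤ 257 * r := by omega
  have hrN : 256 * r ≤ N := by omega
  have hbig : 2 ^ 23 * (ω * σ) ≤ r ^ 2 := by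
    have h1 : N ^ 2 ≤ (257 * r) ^ 2 := Nat.pow_le_pow_left hNr 2
    have h2 : (257 * r) ^ 2 = 66049 * r ^ 2 := by ring
    have h3 : 2 ^ 40 * (ω * σ) = 2 ^ 17 * (2 ^ 23 * (ω * σ)) := by ring
    omega
  have hωr : 2 ^ 23 * ω ≤ r := by
    have h1 : 2 ^ 23 * ω * r ≤ 2 ^ 23 * (ω * σ) := by
      have : ω * r ≤ ω * σ := Nat.mul_le_mul_left _ (by omega)
      calc 2 ^ 23 * ω * r = 2 ^ 23 * (ω * r) := by ring
        _ ≤ _ := Nat.mul_le_mul_left _ this
    have h2 : 2 ^ 23 * ω * r ≤ r * r := by rw [← pow_two]; exact h1.trans hbig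
    exact Nat.le_of_mul_le_mul_right h2 (by omega)
  have hσr : 2 ^ 23 * σ ≤ r ^ 2 := by
    refine le_trans (Nat.mul_le_mul_left _ ?_) hbig
    exact Nat.le_mul_of_pos_left σ (by omega)
  obtain ⟨κ, hκ⟩ : ∃ κ, κ = (σ + N + 3) / r + 1 := ⟨_, rfl⟩
  have hκlo : σ + N + 3 < κ * r := by
    rw [hκ]
    have := Nat.lt_div_mul_add (a := σ + N + 3) (b := r) (by omega)
    rw [Nat.succ_mul]; omega
  have hκhi : κ * r ≤ 4 * σ := by
    have h1 : (σ + N + 3) / r * r ≤ σ + N + 3 := Nat.div_mul_le_self _ _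
    rw [hκ, Nat.succ_mul]
    omega
  have hκ1 : 1 ≤ κ := by rw [hκ]; exact Nat.le_add_left 1 _
  have hωκ : 2 * (ω * κ) ≤ r := by
    have h1 : 2 * (ω * κ) * r ≤ r * r := by
      calc 2 * (ω * κ) * r = 2 * ω * (κ * r) := by ring
        _ ≤ 2 * ω * (4 * σ) := Nat.mul_le_mul_left _ hκhi
        _ = 8 * (ω * σ) := by ring
        _ ≤ 2 ^ 23 * (ω * σ) := Nat.mul_le_mul_right _ (by norm_num)
        _ ≤ r * r := by rw [← pow_two]; exact hbig
    exact Nat.le_of_mul_le_mul_right h1 (by omega)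
  have hκr : κ ≤ r := by
    have : κ ≤ ω * κ := Nat.le_mul_of_pos_left κ (by omega)
    omega
  obtain ⟨R, hR⟩ : ∃ R, R = σ / r + 1 := ⟨_, rfl⟩
  have hRlo : σ ≤ r * R := by
    rw [hR]
    have := Nat.lt_div_mul_add (a := σ) (b := r) (by omega)
    rw [mul_comm, Nat.succ_mul]; omega
  have hRhi : R ≤ r := by
    have h1 : σ / r ≤ r / 2 := by
      apply Nat.div_le_of_le_mul
      have : 4 * σ ≤ r * r := by rw [← pow_two]; omega
      have h3 : r ≤ r / 2 * 2 + 1 := by omega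
      have h4 : r * r ≤ r * (r / 2 * 2 + 1) := Nat.mul_le_mul_left _ h3
      have h5 : r * (r / 2 * 2 + 1) = 2 * (r * (r / 2)) + r := by ring
      have h6 : r * 1 ≤ r * (r / 2) := Nat.mul_le_mul_left _ (by omega)
      omega
    omega
  -- the parameters
  obtain ⟨τ, hτ⟩ : ∃ τ : ℕ, τ = 2 ^ (16 * r - 1) := ⟨_, rfl⟩
  have h2τ : 2 * τ = 2 ^ (16 * r) := by
    rw [hτ, ← pow_succ']
    congr 1
    omega
  have hττ : 16 * τ ^ 4 ≤ 2 ^ (64 * r) := by
    have : 16 * τ ^ 4 = (2 * τ) ^ 4 := by ring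
    rw [this, h2τ, ← pow_mul]
    exact le_of_eq (by congr 1; ring)
  have hκs : κ * σ + 1 ≤ τ := by
    have h1 : κ * σ ≤ r * r ^ 2 := Nat.mul_le_mul hκr (by omega)
    have h2 : r < 2 ^ r := Nat.lt_two_pow_self
    have h3 : r * r ^ 2 ≤ (2 ^ r) ^ 3 := by
      calc r * r ^ 2 = r ^ 3 := by ring
        _ ≤ _ := Nat.pow_le_pow_left h2.le 3
    have h4 : (2 ^ r) ^ 3 + 1 ≤ 2 ^ (3 * r + 1) := by
      rw [← pow_mul, mul_comm r 3, pow_succ]
      have : 1 ≤ 2 ^ (3 * r) := Nat.one_le_two_pow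
      omega
    have h5 : 2 ^ (3 * r + 1) ≤ τ := by
      rw [hτ]
      exact Nat.pow_le_pow_right (by norm_num) (by omega)
    omega
  have hcount := count C e (2 ^ N') w hVk Nat.one_le_two_pow hlay
    (fun Y hY => hS Y (by rw [hY, hN', pow_succ]; ring)) σ τ (2 ^ (64 * r)) κ (2 ^ r)
    (2 ^ (ω * κ)) (2 ^ (65 * r + 3 + ω)) R hs hκs hκ1 hττ (by
      have : 2 * 2 ^ N' = 2 ^ N := by rw [hN', pow_succ]; ring
      rw [this]
      exact Nat.pow_le_pow_right (by norm_num) (by omega)) (by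
      rw [pow_mul]
      exact Nat.pow_le_pow_left hw κ) ?_ ?_ (by positivity) ?_ ?_ ?_
  · -- the conclusion
    have h2τR : (2 * (τ : ℝ)) = 2 ^ (16 * r) := by exact_mod_cast h2τ
    have hlog : Real.log (2 * (τ : ℝ)) = 16 * r * Real.log 2 := by
      rw [h2τR, Real.log_pow]; push_cast; ring
    have hl2 : (0.6931471803 : ℝ) < Real.log 2 := Real.log_two_gt_d9
    have h2N : (2 : ℝ) * ((2 ^ N' : ℕ) : ℝ) = 2 ^ N := by
      rw [hN', pow_succ]; push_cast; ring
    rw [h2N, hlog, h2τR] at hcount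
    -- first term
    have t1 : (2 : ℝ) ^ N * (C.size * ((w : ℝ) ^ κ / (2 ^ (16 * r)) ^ κ)) ≤ 1 / 4 := by
      have a1 : (C.size : ℝ) ≤ 2 ^ σ := by exact_mod_cast hs.le
      have a2 : (w : ℝ) ^ κ ≤ 2 ^ (ω * κ) := by
        rw [pow_mul]
        apply pow_le_pow_left₀ (by positivity)
        exact_mod_cast (by omega : w ≤ 2 ^ ω)
      have a3 : ((2 : ℝ) ^ (16 * r)) ^ κ = 2 ^ (16 * r * κ) := by rw [← pow_mul]
      rw [a3]
      have a4 : (2 : ℝ) ^ N * (C.size * ((w : ℝ) ^ κ / 2 ^ (16 * r * κ))) ≤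
          2 ^ N * (2 ^ σ * (2 ^ (ω * κ) / 2 ^ (16 * r * κ))) := by
        gcongr
      refine a4.trans ?_
      have a5 : (2 : ℝ) ^ N * (2 ^ σ * (2 ^ (ω * κ) / 2 ^ (16 * r * κ))) =
          2 ^ (N + σ + ω * κ) / 2 ^ (16 * r * κ) := by
        rw [pow_add, pow_add]; ring
      rw [a5, div_le_div_iff₀ (by positivity) (by norm_num)]
      have a6 : (2 : ℝ) ^ (N + σ + ω * κ) * 4 = 2 ^ (N + σ + ω * κ + 2) := by
        rw [pow_add _ _ 2]; norm_num
      rw [a6, one_mul]
      apply pow_le_pow_right₀ (by norm_num)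
      have a7 : r ≤ r * κ := Nat.le_mul_of_pos_right r (by omega)
      have a8 : κ * r = r * κ := Nat.mul_comm _ _
      have a9 : 16 * r * κ = 16 * (r * κ) := by ring
      omega
    -- second term
    have t2 : (2 : ℝ) ^ N * Real.exp (-(16 * r * Real.log 2 *
        max (1 : ℝ) (2 ^ N / (((2 ^ (65 * r + 3 + ω) : ℕ) : ℝ) * 2 ^ R)))) ≤ 1 / 4 := by
      have b1 : (32 : ℝ) ≤ max (1 : ℝ) (2 ^ N / (((2 ^ (65 * r + 3 + ω) : ℕ) : ℝ) * 2 ^ R)) := by
        refine le_trans ?_ (le_max_right _ _)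
        rw [le_div_iff₀ (by positivity)]
        have : (32 : ℝ) * (((2 ^ (65 * r + 3 + ω) : ℕ) : ℝ) * 2 ^ R) =
            2 ^ (5 + (65 * r + 3 + ω) + R) := by
          push_cast
          rw [pow_add, pow_add]; norm_num; ring
        rw [this]
        apply pow_le_pow_right₀ (by norm_num)
        omega
      have b2 : (N + 2 : ℝ) * Real.log 2 ≤ 16 * r * Real.log 2 *
          max (1 : ℝ) (2 ^ N / (((2 ^ (65 * r + 3 + ω) : ℕ) : ℝ) * 2 ^ R)) := by
        have c1 : (16 * r * Real.log 2) * 32 ≤ 16 * r * Real.log 2 *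
            max (1 : ℝ) (2 ^ N / (((2 ^ (65 * r + 3 + ω) : ℕ) : ℝ) * 2 ^ R)) :=
          mul_le_mul_of_nonneg_left b1 (by positivity)
        refine le_trans ?_ c1
        have c2 : (N + 2 : ℝ) ≤ 512 * r := by
          have : N + 2 ≤ 512 * r := by omega
          exact_mod_cast this
        have c3 : (N + 2 : ℝ) * Real.log 2 ≤ 512 * r * Real.log 2 :=
          mul_le_mul_of_nonneg_right c2 (by positivity)
        linarith
      have b3 : Real.exp (-((N + 2 : ℝ) * Real.log 2)) = 1 / 2 ^ (N + 2) := by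
        rw [Real.exp_neg, one_div]
        congr 1
        have : (N + 2 : ℝ) * Real.log 2 = ((N + 2 : ℕ) : ℝ) * Real.log 2 := by push_cast; ring
        rw [this, ← Real.log_pow, Real.exp_log (by positivity)]
      calc _ ≤ (2 : ℝ) ^ N * Real.exp (-((N + 2 : ℝ) * Real.log 2)) := by
            apply mul_le_mul_of_nonneg_left _ (by positivity)
            apply Real.exp_le_exp.2
            linarith
        _ = 1 / 4 := by
            rw [b3, pow_add]
            field_simp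
            norm_num
    rw [mul_add] at hcount
    linarith
  · -- 2 ≤ log
    have h2τR : (2 * (τ : ℝ)) = 2 ^ (16 * r) := by exact_mod_cast h2τ
    rw [h2τR, Real.log_pow]
    have hl2 : (0.6931471803 : ℝ) < Real.log 2 := Real.log_two_gt_d9
    have : (4 : ℝ) ≤ ((16 * r : ℕ) : ℝ) := by exact_mod_cast (by omega : 4 ≤ 16 * r)
    nlinarith
  · -- μ
    have h1 : w * (2 * 2 ^ (64 * r)) ≤ 2 ^ ω * (2 * 2 ^ (64 * r)) :=
      Nat.mul_le_mul_right _ (by omega)
    refine h1.trans ?_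
    have : 2 ^ ω * (2 * 2 ^ (64 * r)) = 2 ^ (ω + 1 + 64 * r) := by
      rw [pow_add, pow_add]; ring
    rw [this]
    exact Nat.pow_le_pow_right (by norm_num) (by omega)
  · have : 8 * (2 ^ r * 2 ^ (64 * r)) = 2 ^ (3 + r + 64 * r) := by
      rw [pow_add, pow_add]; norm_num; ring
    rw [this]
    exact Nat.pow_le_pow_right (by norm_num) (by omega)
  · -- B M² exp ≤ 1
    have h2τR : (2 * (τ : ℝ)) = 2 ^ (16 * r) := by exact_mod_cast h2τ
    have hlog : Real.log (2 * (τ : ℝ)) / 8 = Real.log (2 ^ (2 * r)) := by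
      rw [h2τR, Real.log_pow, Real.log_pow]; push_cast; ring
    rw [hlog, Real.exp_neg, Real.exp_log (by positivity)]
    push_cast
    rw [← pow_mul]
    have h1 : (2 : ℝ) ^ (ω * κ * 2) ≤ 2 ^ r := pow_le_pow_right₀ (by norm_num) (by omega)
    calc (2 : ℝ) ^ r * (2 ^ (ω * κ * 2) * (2 ^ (2 * r))⁻¹) ≤ 2 ^ r * (2 ^ r * (2 ^ (2 * r))⁻¹) := by
          gcongr
      _ = 1 := by
          rw [two_mul, pow_add]
          field_simp
  · rw [← pow_mul]
    exact hs.le.trans (Nat.pow_le_pow_right (by norm_num) hRlo)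

end

end Pool.Agent.TH708.Nar
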