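import Pool.Agent.TH708.Dec.Upper
import Pool.Agent.TH708.Dec.Lower
import Pool.Agent.TH708.Nar.Near

/-!
# How a circuit of formal degree one uses its gates
-/

set_option autoImplicit false
set_option linter.unusedSectionVars false

namespace Pool.Agent.TH708.Nar

open Finset Pool.Agent.TH708.Dec

section Basic

variable {I : Type} [DecidableEq I] (C : Ckt I)

/-- The node is an AND gate or an OR gate. -/
def IsGate (g : C.G) : Prop := ∃ a b, C.kind g = Kind.and a b ∨ C.kind g = Kind.or a b

/-- The node `g` is used in some way on the input `z`: changing its value from false to true can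
only change the output from false to true, and the output is true if `g` is. -/
inductive Use (z : I → Bool) : C.G → Prop
  | out : Use z C.out
  | orl {p a b : C.G} (h : Use z p) (k : C.kind p = Kind.or a b) : Use z a
  | orr {p a b : C.G} (h : Use z p) (k : C.kind p = Kind.or a b) : Use z b
  | andl {p a b : C.G} (h : Use z p) (k : C.kind p = Kind.and a b)
      (hb : (C.tree b).eval z = true) : Use z a
  | andr {p a b : C.G} (h : Use z p) (k : C.kind p = Kind.and a b)
      (ha : (C.tree a).eval z = true) : Use z b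

variable {C}

theorem Use.deg_le {z : I → Bool} {g : C.G} (h : Use C z g) (i : I) :
    (C.tree g).deg i ≤ C.deg i := by
  induction h with
  | out => exact le_rfl
  | orl _ k ih => rw [tree_or C _ _ _ k] at ih; simp only [Fm.deg] at ih; omega
  | orr _ k ih => rw [tree_or C _ _ _ k] at ih; simp only [Fm.deg] at ih; omega
  | andl _ k _ ih => rw [tree_and C _ _ _ k] at ih; simp only [Fm.deg] at ih; omega
  | andr _ k _ ih => rw [tree_and C _ _ _ k] at ih; simp only [Fm.deg] at ih; omega

theorem Use.sound {z : I → Bool} {g : C.G} (h : Use C z g) :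
    (C.tree g).eval z = true → C.eval z = true := by
  induction h with
  | out => exact id
  | orl _ k ih =>
    intro h; apply ih; rw [tree_or C _ _ _ k]; simp [Fm.eval, h]
  | orr _ k ih =>
    intro h; apply ih; rw [tree_or C _ _ _ k]; simp [Fm.eval, h]
  | andl _ k hb ih =>
    intro h; apply ih; rw [tree_and C _ _ _ k]; simp [Fm.eval, h, hb]
  | andr _ k ha ih =>
    intro h; apply ih; rw [tree_and C _ _ _ k]; simp [Fm.eval, h, ha]

theorem Fm.eval_congr' (F : Fm I) {z z' : I → Bool} (h : ∀ i, 1 ≤ F.deg i → z i = z' i) :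
    F.eval z = F.eval z' := by
  induction F with
  | lit i b => simp only [Fm.eval]; rw [h i (by simp [Fm.deg])]
  | cst b => rfl
  | and F G ihF ihG =>
    simp only [Fm.eval]
    rw [ihF fun i hi => h i (by simp only [Fm.deg]; omega),
      ihG fun i hi => h i (by simp only [Fm.deg]; omega)]
  | or F G ihF ihG =>
    simp only [Fm.eval]
    rw [ihF fun i hi => h i (by simp only [Fm.deg]; omega),
      ihG fun i hi => h i (by simp only [Fm.deg]; omega)]

theorem Use.congr {T : I → Prop} (hT : ∀ i, T i → C.deg i ≤ 1) {z : I → Bool} {g : C.G}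
    (h : Use C z g) : ∀ z' : I → Bool, (∀ i, z i ≠ z' i → T i ∧ 1 ≤ (C.tree g).deg i) →
      Use C z' g := by
  induction h with
  | out => exact fun _ _ => Use.out
  | orl _ k ih =>
    intro z' hz
    refine Use.orl (ih z' fun i hi => ?_) k
    obtain ⟨h1, h2⟩ := hz i hi
    refine ⟨h1, ?_⟩
    rw [tree_or C _ _ _ k]; simp only [Fm.deg]; omega
  | orr _ k ih =>
    intro z' hz
    refine Use.orr (ih z' fun i hi => ?_) k
    obtain ⟨h1, h2⟩ := hz i hi
    refine ⟨h1, ?_⟩
    rw [tree_or C _ _ _ k]; simp only [Fm.deg]; omega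
  | andl hp k hb ih =>
    intro z' hz
    refine Use.andl (ih z' fun i hi => ?_) k ?_
    · obtain ⟨h1, h2⟩ := hz i hi
      refine ⟨h1, ?_⟩
      rw [tree_and C _ _ _ k]; simp only [Fm.deg]; omega
    · rw [← Fm.eval_congr' _ (z := _) (z' := z') (fun i hi => ?_)]
      · exact hb
      · by_contra hne
        obtain ⟨h1, h2⟩ := hz i hne
        have h3 := hp.deg_le i
        rw [tree_and C _ _ _ k] at h3
        simp only [Fm.deg] at h3
        have h4 := hT i h1
        omega
  | andr hp k ha ih =>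
    intro z' hz
    refine Use.andr (ih z' fun i hi => ?_) k ?_
    · obtain ⟨h1, h2⟩ := hz i hi
      refine ⟨h1, ?_⟩
      rw [tree_and C _ _ _ k]; simp only [Fm.deg]; omega
    · rw [← Fm.eval_congr' _ (z := _) (z' := z') (fun i hi => ?_)]
      · exact ha
      · by_contra hne
        obtain ⟨h1, h2⟩ := hz i hne
        have h3 := hp.deg_le i
        rw [tree_and C _ _ _ k] at h3
        simp only [Fm.deg] at h3
        have h4 := hT i h1
        omega

end Basic

/-- What is known of a circuit and a set `Y` of half of the tracked inputs: for some side input and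
some matching of `Y` with its complement, it checks that matched inputs are equal. -/
structure Sit {I : Type} [DecidableEq I] {V : Type} [DecidableEq V] [Fintype V] (C : Ckt I)
    (e : V → I) (ρ : I → Bool) (Y : Finset V) (σ : V → V) : Prop where
  inj : Function.Injective e
  deg : ∀ i, C.deg (e i) ≤ 1
  half : Fintype.card V = 2 * Y.card
  out : ∀ y ∈ Y, σ y ∉ Y
  sinj : Set.InjOn σ Y
  eval : ∀ x : V → Bool, C.eval (merge e ρ x) = true ↔ ∀ y ∈ Y, x y = x (σ y)

section Rect

variable {I : Type} [DecidableEq I] {V : Type} [DecidableEq V] [Fintype V] {C : Ckt I}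
  {e : V → I} {ρ : I → Bool} {Y : Finset V} {σ : V → V}

/-- The tracked inputs that are read by a node. -/
def vs (C : Ckt I) (e : V → I) (g : C.G) : Finset V := univ.filter fun i => 1 ≤ (C.tree g).deg (e i)

theorem mem_vs {g : C.G} {i : V} : i ∈ vs C e g ↔ 1 ≤ (C.tree g).deg (e i) := by
  simp [vs]

/-- The node is used and true. -/
def Rc (C : Ckt I) (e : V → I) (ρ : I → Bool) (g : C.G) (x : V → Bool) : Prop :=
  Use C (merge e ρ x) g ∧ (C.tree g).eval (merge e ρ x) = true

theorem merge_ne (h : Function.Injective e) {x x' : V → Bool} {v : I}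
    (hne : merge e ρ x v ≠ merge e ρ x' v) : ∃ i, e i = v ∧ x i ≠ x' i := by
  by_cases hv : ∃ i, e i = v
  · obtain ⟨i, rfl⟩ := hv
    rw [merge_e e h, merge_e e h] at hne
    exact ⟨i, rfl, hne⟩
  · push Not at hv
    rw [merge_off e _ _ _ hv, merge_off e _ _ _ hv] at hne
    exact absurd rfl hne

theorem Sit.use_congr (S : Sit C e ρ Y σ) {g : C.G} {x x' : V → Bool}
    (h : Use C (merge e ρ x) g) (hx : ∀ i ∉ vs C e g, x i = x' i) : Use C (merge e ρ x') g := by
  refine h.congr (T := fun v => ∃ i, e i = v) ?_ _ ?_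
  · rintro v ⟨i, rfl⟩; exact S.deg i
  · intro v hv
    obtain ⟨i, rfl, hi⟩ := merge_ne S.inj hv
    refine ⟨⟨i, rfl⟩, ?_⟩
    by_contra hc
    exact hi (hx i (fun h' => hc (mem_vs.1 h')))

theorem Sit.eval_congr (S : Sit C e ρ Y σ) {g : C.G} {x x' : V → Bool}
    (hx : ∀ i ∈ vs C e g, x i = x' i) :
    (C.tree g).eval (merge e ρ x) = (C.tree g).eval (merge e ρ x') := by
  apply Fm.eval_congr'
  intro v hv
  by_contra hne
  obtain ⟨i, rfl, hi⟩ := merge_ne S.inj hne
  exact hi (hx i (mem_vs.2 hv))

theorem Rc.acc (S : Sit C e ρ Y σ) {g : C.G} {x : V → Bool} (h : Rc C e ρ g x) :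
    ∀ y ∈ Y, x y = x (σ y) := (S.eval x).1 (h.1.sound h.2)

theorem Rc.mix (S : Sit C e ρ Y σ) {g : C.G} {x x' : V → Bool} (h : Rc C e ρ g x)
    (h' : Rc C e ρ g x') : Rc C e ρ g (fun i => if i ∈ vs C e g then x i else x' i) := by
  refine ⟨S.use_congr h'.1 fun i hi => by simp [hi], ?_⟩
  rw [← S.eval_congr (x := x) fun i hi => by simp [hi]]
  exact h.2

/-- The split pairs. -/
def Sp (C : Ckt I) (e : V → I) (Y : Finset V) (σ : V → V) (g : C.G) : Finset V :=
  Y.filter fun y => ¬ (y ∈ vs C e g ↔ σ y ∈ vs C e g)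

theorem Rc.const (S : Sit C e ρ Y σ) {g : C.G} {x x' : V → Bool} (h : Rc C e ρ g x)
    (h' : Rc C e ρ g x') {y : V} (hy : y ∈ Sp C e Y σ g) : x y = x' y := by
  rw [Sp, mem_filter] at hy
  have h1 := (h.mix S h').acc S y hy.1
  have h2 := h.acc S y hy.1
  have h3 := h'.acc S y hy.1
  by_cases a : y ∈ vs C e g
  · have b : σ y ∉ vs C e g := fun hb => hy.2 ⟨fun _ => hb, fun _ => a⟩
    simp only [a, b, if_true, if_false] at h1
    rw [h1, h3]
  · have b : σ y ∈ vs C e g := by
      by_contra hb
      exact hy.2 ⟨fun h => absurd h a, fun h => absurd h hb⟩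
    simp only [a, b, if_true, if_false] at h1
    rw [h1, ← h2]

theorem Sit.surj (S : Sit C e ρ Y σ) {i : V} (hi : i ∉ Y) : ∃ y ∈ Y, σ y = i := by
  have h1 : (Y.image σ).card = Y.card := card_image_of_injOn S.sinj
  have h2 : Y.image σ ⊆ Yᶜ := by
    intro a ha
    rw [mem_image] at ha
    obtain ⟨y, hy, rfl⟩ := ha
    exact mem_compl.2 (S.out y hy)
  have h3 : Y.image σ = Yᶜ := by
    apply eq_of_subset_of_card_le h2
    rw [card_compl, S.half, h1]
    omega
  have h4 : i ∈ Y.image σ := by rw [h3]; exact mem_compl.2 hi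
  rw [mem_image] at h4
  exact h4

theorem Sit.ext (S : Sit C e ρ Y σ) {x x' : V → Bool} (h : ∀ y ∈ Y, x y = x (σ y))
    (h' : ∀ y ∈ Y, x' y = x' (σ y)) (hY : ∀ y ∈ Y, x y = x' y) : x = x' := by
  funext i
  by_cases hi : i ∈ Y
  · exact hY i hi
  · obtain ⟨y, hy, rfl⟩ := S.surj hi
    rw [← h y hy, ← h' y hy, hY y hy]

open Classical in
theorem Sit.rect_card (S : Sit C e ρ Y σ) (g : C.G) :
    (univ.filter fun x : V → Bool => Rc C e ρ g x).card ≤ 2 ^ (Y \ Sp C e Y σ g).card := by
  rw [← card_powerset]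
  apply card_le_card_of_injOn (fun x => (Y \ Sp C e Y σ g).filter fun y => x y = true)
  · intro x _
    rw [mem_coe, mem_powerset]
    exact filter_subset _ _
  · intro x hx x' hx' he
    rw [mem_coe, mem_filter] at hx hx'
    apply S.ext (hx.2.acc S) (hx'.2.acc S)
    intro y hy
    by_cases hs : y ∈ Sp C e Y σ g
    · exact hx.2.const S hx'.2 hs
    · have := congrArg (fun T => y ∈ T) he
      simp only [mem_filter, mem_sdiff, hy, hs, not_false_eq_true, and_self, true_and,
        eq_iff_iff] at this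
      exact Bool.eq_iff_iff.2 this

open Classical in
theorem Sit.acc_card (S : Sit C e ρ Y σ) :
    2 ^ Y.card ≤ (univ.filter fun x : V → Bool => ∀ y ∈ Y, x y = x (σ y)).card := by
  rw [← card_powerset]
  apply card_le_card_of_injOn (fun T i => decide (i ∈ T ∨ ∃ y ∈ T, σ y = i))
  · intro T hT
    rw [mem_coe, mem_powerset] at hT
    rw [mem_coe, mem_filter]
    refine ⟨mem_univ _, fun y hy => ?_⟩
    apply decide_eq_decide.2
    constructor
    · rintro (h | ⟨y', hy', he⟩)
      · exact Or.inr ⟨y, h, rfl⟩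
      · exact absurd (he ▸ hy) (S.out y' (hT hy'))
    · rintro (h | ⟨y', hy', he⟩)
      · exact absurd (hT h) (S.out y hy)
      · left
        rw [← S.sinj (hT hy') hy he]
        exact hy'
  · intro T hT T' hT' he
    rw [mem_coe, mem_powerset] at hT hT'
    have key : ∀ T T' : Finset V, T ⊆ Y → T' ⊆ Y →
        (fun i => decide (i ∈ T ∨ ∃ y ∈ T, σ y = i)) =
          (fun i => decide (i ∈ T' ∨ ∃ y ∈ T', σ y = i)) → T ⊆ T' := by
      intro T T' hT hT' he y hy
      have := congrFun he y
      simp only [decide_eq_decide] at this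
      rcases this.1 (Or.inl hy) with h | ⟨y', hy', h⟩
      · exact h
      · exact absurd (h ▸ hT hy) (S.out y' (hT' hy'))
    exact Subset.antisymm (key T T' hT hT' he) (key T' T hT' hT he.symm)

theorem Sit.split_ge (S : Sit C e ρ Y σ) {s : ℕ} {g : C.G} (h : ¬ Near s (vs C e g) Y) :
    s ≤ (Sp C e Y σ g).card := by
  set A := vs C e g with hA
  have h1 : (A ∩ Y).card ≤ (A \ Y).card + (Sp C e Y σ g).card := by
    have : (A ∩ Y).card ≤ ((A \ Y).card + (Sp C e Y σ g).card) := by
      have hsub : (A ∩ Y) ⊆ ((A ∩ Y) \ Sp C e Y σ g) ∪ Sp C e Y σ g := by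
        intro i hi
        by_cases hs : i ∈ Sp C e Y σ g
        · exact mem_union_right _ hs
        · exact mem_union_left _ (mem_sdiff.2 ⟨hi, hs⟩)
      refine (card_le_card hsub).trans ((card_union_le _ _).trans (Nat.add_le_add_right ?_ _))
      apply card_le_card_of_injOn σ
      · intro y hy
        rw [mem_coe, mem_sdiff, mem_inter, Sp, mem_filter] at hy
        rw [mem_coe, mem_sdiff]
        refine ⟨?_, S.out y hy.1.2⟩
        by_contra hc
        exact hy.2 ⟨hy.1.2, fun h => hc (h.1 hy.1.1)⟩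
      · intro y hy y' hy' he
        rw [mem_coe, mem_sdiff, mem_inter] at hy hy'
        exact S.sinj hy.1.2 hy'.1.2 he
    exact this
  have h2 : (A \ Y).card ≤ (A ∩ Y).card + (Sp C e Y σ g).card := by
    have hsub : (A \ Y) ⊆ ((A ∩ Y) ∪ Sp C e Y σ g).image σ := by
      intro i hi
      rw [mem_sdiff] at hi
      obtain ⟨y, hy, rfl⟩ := S.surj hi.2
      rw [mem_image]
      refine ⟨y, ?_, rfl⟩
      rw [mem_union, mem_inter]
      by_cases hyA : y ∈ A
      · exact Or.inl ⟨hyA, hy⟩
      · right
        rw [Sp, mem_filter]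
        exact ⟨hy, fun h => hyA (h.2 hi.1)⟩
    exact (card_le_card hsub).trans (card_image_le.trans (card_union_le _ _))
  have h3 : (A ∩ Y).card + (A \ Y).card = A.card := card_inter_add_card_sdiff A Y
  unfold Near at h
  rw [not_and_or] at h
  omega

/-- On some accepted input all used nodes are nearly balanced. -/
theorem Sit.exists_near (S : Sit C e ρ Y σ) {s : ℕ} (hs : C.size < 2 ^ s) :
    ∃ x : V → Bool, (∀ y ∈ Y, x y = x (σ y)) ∧ ∀ g, Rc C e ρ g x → Near s (vs C e g) Y := by
  classical
  by_contra hcon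
  push Not at hcon
  have hsub : (univ.filter fun x : V → Bool => ∀ y ∈ Y, x y = x (σ y)) ⊆
      (univ.filter fun g : C.G => ¬ Near s (vs C e g) Y).biUnion fun g =>
        univ.filter fun x : V → Bool => Rc C e ρ g x := by
    intro x hx
    rw [mem_filter] at hx
    obtain ⟨g, hg, hn⟩ := hcon x hx.2
    rw [mem_biUnion]
    exact ⟨g, mem_filter.2 ⟨mem_univ _, hn⟩, mem_filter.2 ⟨mem_univ _, hg⟩⟩
  have h1 := S.acc_card.trans ((card_le_card hsub).trans card_biUnion_le)
  have h2 : 2 ^ s * 2 ^ Y.card ≤ C.size * 2 ^ Y.card := by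
    calc 2 ^ s * 2 ^ Y.card ≤ 2 ^ s * ∑ g ∈ univ.filter (fun g : C.G => ¬ Near s (vs C e g) Y),
          (univ.filter fun x : V → Bool => Rc C e ρ g x).card := Nat.mul_le_mul_left _ h1
      _ = ∑ g ∈ univ.filter (fun g : C.G => ¬ Near s (vs C e g) Y),
          2 ^ s * (univ.filter fun x : V → Bool => Rc C e ρ g x).card := by rw [mul_sum]
      _ ≤ ∑ _g ∈ univ.filter (fun g : C.G => ¬ Near s (vs C e g) Y), 2 ^ Y.card := by
          apply sum_le_sum
          intro g hg
          rw [mem_filter] at hg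
          have h3 := S.split_ge hg.2
          have h4 : Sp C e Y σ g ⊆ Y := filter_subset _ _
          have h5 := card_sdiff_add_card_eq_card h4
          calc 2 ^ s * (univ.filter fun x : V → Bool => Rc C e ρ g x).card ≤
              2 ^ s * 2 ^ (Y \ Sp C e Y σ g).card := Nat.mul_le_mul_left _ (S.rect_card g)
            _ = 2 ^ (s + (Y \ Sp C e Y σ g).card) := by rw [← pow_add]
            _ ≤ 2 ^ Y.card := Nat.pow_le_pow_right (by norm_num) (by omega)
      _ ≤ C.size * 2 ^ Y.card := by
          rw [sum_const, smul_eq_mul]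
          apply Nat.mul_le_mul_right
          exact (card_filter_le _ _).trans (by rw [card_univ]; exact le_rfl)
  have h3 := Nat.le_of_mul_le_mul_right h2 (by positivity)
  omega

end Rect

end Pool.Agent.TH708.Nar
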